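import Mathlib

/-!
# The ring of smooth complex valued functions on an open subset of the plane

`Sm V`: functions `V → ℂ` whose extension by zero is smooth on `V`. `dv hV v`: the derivative in direction `v`, a derivation.
-/

set_option autoImplicit false

namespace Pool.Agent.Helper33.TT

/-- Extension by zero. -/
noncomputable def ext (V : Set (ℝ × ℝ)) (g : V → ℂ) : ℝ × ℝ → ℂ := fun x => by
  classical exact if h : x ∈ V then g ⟨x, h⟩ else 0

theorem ext_mem {V : Set (ℝ × ℝ)} (g : V → ℂ) {x : ℝ × ℝ} (h : x ∈ V) : ext V g x = g ⟨x, h⟩ := by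
  unfold ext
  rw [dif_pos h]

theorem ext_add (V : Set (ℝ × ℝ)) (g h : V → ℂ) : ext V (g + h) = ext V g + ext V h := by
  funext x
  by_cases hx : x ∈ V
  · simp [ext, hx]
  · simp [ext, hx]

theorem ext_mul (V : Set (ℝ × ℝ)) (g h : V → ℂ) : ext V (g * h) = ext V g * ext V h := by
  funext x
  by_cases hx : x ∈ V
  · simp [ext, hx]
  · simp [ext, hx]

theorem ext_congr {V : Set (ℝ × ℝ)} {g : V → ℂ} {F : ℝ × ℝ → ℂ} (h : ∀ x : V, g x = F x) :
    Set.EqOn (ext V g) F V := by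
  intro x hx
  rw [ext_mem g hx]
  exact h ⟨x, hx⟩

/-- The ring of smooth complex valued functions on `V`. -/
def Sm (V : Set (ℝ × ℝ)) : Subalgebra ℚ (V → ℂ) where
  carrier := {g | ContDiffOn ℝ ((⊤ : ℕ∞) : WithTop ℕ∞) (ext V g) V}
  mul_mem' := by
    intro a b ha hb
    show ContDiffOn ℝ _ (ext V (a * b)) V
    rw [ext_mul]
    exact ha.mul hb
  add_mem' := by
    intro a b ha hb
    show ContDiffOn ℝ _ (ext V (a + b)) V
    rw [ext_add]
    exact ha.add hb
  algebraMap_mem' := by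
    intro r
    show ContDiffOn ℝ _ (ext V _) V
    refine (contDiffOn_const (c := (r : ℂ))).congr ?_
    intro x hx
    rw [ext_mem _ hx]
    rfl

variable {V : Set (ℝ × ℝ)}

theorem sm_mem {g : V → ℂ} : g ∈ Sm V ↔ ContDiffOn ℝ ((⊤ : ℕ∞) : WithTop ℕ∞) (ext V g) V := Iff.rfl

/-- The element of `Sm V` given by a smooth function. -/
noncomputable def mk (F : ℝ × ℝ → ℂ) (hF : ContDiffOn ℝ ((⊤ : ℕ∞) : WithTop ℕ∞) F V) : Sm V :=
  ⟨fun x => F x, sm_mem.2 (hF.congr (ext_congr fun _ => rfl))⟩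

@[simp] theorem mk_apply (F : ℝ × ℝ → ℂ) (hF : ContDiffOn ℝ ((⊤ : ℕ∞) : WithTop ℕ∞) F V) (x : V) :
    (mk F hF : V → ℂ) x = F x := rfl

theorem Sm.ext' {a b : Sm V} (h : ∀ x : V, (a : V → ℂ) x = (b : V → ℂ) x) : a = b :=
  Subtype.ext (funext h)

/-- The function on the plane (extended by zero) of an element of `Sm V`. -/
noncomputable def fn (a : Sm V) : ℝ × ℝ → ℂ := ext V a

theorem fn_smooth (a : Sm V) : ContDiffOn ℝ ((⊤ : ℕ∞) : WithTop ℕ∞) (fn a) V := a.2

theorem fn_mem (a : Sm V) {x : ℝ × ℝ} (h : x ∈ V) : fn a x = (a : V → ℂ) ⟨x, h⟩ := ext_mem _ h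

theorem fn_diff (hV : IsOpen V) (a : Sm V) {x : ℝ × ℝ} (h : x ∈ V) : DifferentiableAt ℝ (fn a) x :=
  ((fn_smooth a).differentiableOn (by simp) x h).differentiableAt (hV.mem_nhds h)

/-- Directional derivative. -/
noncomputable def dvf (hV : IsOpen V) (v : ℝ × ℝ) (a : Sm V) : Sm V :=
  mk (fun x => fderiv ℝ (fn a) x v)
    (((fn_smooth a).fderiv_of_isOpen hV (by simp)).clm_apply contDiffOn_const)

theorem dvf_apply (hV : IsOpen V) (v : ℝ × ℝ) (a : Sm V) (x : V) :
    (dvf hV v a : V → ℂ) x = fderiv ℝ (fn a) x v := rfl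

/-- Directional derivative, as a derivation. -/
noncomputable def dv (hV : IsOpen V) (v : ℝ × ℝ) : Derivation ℚ (Sm V) (Sm V) :=
  Derivation.mk'
    { toFun := dvf hV v
      map_add' := by
        intro a b
        apply Sm.ext'
        intro x
        show fderiv ℝ (ext V (a + b : V → ℂ)) x v = fderiv ℝ (fn a) x v + fderiv ℝ (fn b) x v
        rw [ext_add]
        have e : ext V (a : V → ℂ) + ext V (b : V → ℂ) = fn a + fn b := rfl
        rw [e, fderiv_add (fn_diff hV a x.2) (fn_diff hV b x.2)]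
        rfl
      map_smul' := by
        intro r a
        apply Sm.ext'
        intro x
        show fderiv ℝ (ext V (r • (a : V → ℂ))) x v = r • fderiv ℝ (fn a) x v
        have h : ext V (r • (a : V → ℂ)) = (r : ℝ) • fn a := by
          funext y
          by_cases hy : y ∈ V
          · simp [ext, fn, hy, Rat.smul_def]
          · simp [ext, fn, hy]
        rw [h, fderiv_const_smul (fn_diff hV a x.2)]
        simp [Rat.smul_def] }
    (by
      intro a b
      apply Sm.ext'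
      intro x
      show fderiv ℝ (ext V (a * b : V → ℂ)) x v = (a : V → ℂ) x * fderiv ℝ (fn b) x v +
        (b : V → ℂ) x * fderiv ℝ (fn a) x v
      rw [ext_mul]
      have h := fderiv_mul (fn_diff hV a x.2) (fn_diff hV b x.2)
      have e : (ext V (a : V → ℂ) * ext V (b : V → ℂ)) = fun y => fn a y * fn b y := rfl
      rw [e]
      have h' : fderiv ℝ (fun y => fn a y * fn b y) (x : ℝ × ℝ) = fn a x • fderiv ℝ (fn b) x +
        fn b x • fderiv ℝ (fn a) x := h
      rw [h']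
      rw [fn_mem a x.2, fn_mem b x.2]
      rfl)

theorem dv_apply (hV : IsOpen V) (v : ℝ × ℝ) (a : Sm V) (x : V) :
    (dv hV v a : V → ℂ) x = fderiv ℝ (fn a) x v := rfl

theorem dv_mk (hV : IsOpen V) (v : ℝ × ℝ) (F : ℝ × ℝ → ℂ)
    (hF : ContDiffOn ℝ ((⊤ : ℕ∞) : WithTop ℕ∞) F V) (x : V) :
    (dv hV v (mk F hF) : V → ℂ) x = fderiv ℝ F x v := by
  rw [dv_apply]
  have h : fn (mk F hF) =ᶠ[nhds (x : ℝ × ℝ)] F := by
    filter_upwards [hV.mem_nhds x.2] with y hy
    rw [fn_mem _ hy]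
    rfl
  rw [h.fderiv_eq]

/-- The derivations commute. -/
theorem dv_comm (hV : IsOpen V) (v w : ℝ × ℝ) (a : Sm V) :
    dv hV v (dv hV w a) = dv hV w (dv hV v a) := by
  apply Sm.ext'
  intro x
  have h1 : ∀ u u' : ℝ × ℝ, (dv hV u (dv hV u' a) : V → ℂ) x =
      fderiv ℝ (fderiv ℝ (fn a)) x u u' := by
    intro u u'
    have hh : dv hV u' a = mk (fun x => fderiv ℝ (fn a) x u')
      (((fn_smooth a).fderiv_of_isOpen hV (by simp)).clm_apply contDiffOn_const) := rfl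
    rw [hh, dv_mk]
    have hd : DifferentiableAt ℝ (fderiv ℝ (fn a)) x := by
      have h2 : ContDiffOn ℝ ((⊤ : ℕ∞) : WithTop ℕ∞) (fderiv ℝ (fn a)) V :=
        (fn_smooth a).fderiv_of_isOpen hV (by simp)
      exact (h2.differentiableOn (by simp) x x.2).differentiableAt (hV.mem_nhds x.2)
    have h3 := hd.hasFDerivAt.clm_apply (hasFDerivAt_const u' (x : ℝ × ℝ))
    rw [h3.fderiv]
    simp
  rw [h1, h1]
  have hc : ContDiffAt ℝ ((⊤ : ℕ∞) : WithTop ℕ∞) (fn a) x :=
    (fn_smooth a).contDiffAt (hV.mem_nhds x.2)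
  have hs : IsSymmSndFDerivAt ℝ (fn a) x := by
    refine hc.isSymmSndFDerivAt ?_
    rw [minSmoothness_of_isRCLikeNormedField]
    have h2 : ((2 : ℕ∞) : WithTop ℕ∞) ≤ ((⊤ : ℕ∞) : WithTop ℕ∞) := WithTop.coe_le_coe.2 le_top
    exact h2
  exact hs v w

/-- Complex conjugation. -/
noncomputable def cj : Sm V →+* Sm V where
  toFun a := ⟨fun x => (starRingEnd ℂ) ((a : V → ℂ) x), by
    rw [sm_mem]
    have h : ContDiffOn ℝ ((⊤ : ℕ∞) : WithTop ℕ∞) (fun x => (starRingEnd ℂ) (fn a x)) V :=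
      Complex.conjCLE.contDiff.comp_contDiffOn (fn_smooth a)
    refine h.congr ?_
    intro x hx
    rw [ext_mem _ hx, fn_mem a hx]⟩
  map_one' := by
    apply Sm.ext'
    intro x
    simp
  map_zero' := by
    apply Sm.ext'
    intro x
    simp
  map_mul' a b := by
    apply Sm.ext'
    intro x
    simp
  map_add' a b := by
    apply Sm.ext'
    intro x
    simp

theorem cj_apply (a : Sm V) (x : V) : (cj a : V → ℂ) x = (starRingEnd ℂ) ((a : V → ℂ) x) := rfl

theorem cj_cj (a : Sm V) : cj (cj a) = a := by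
  apply Sm.ext'
  intro x
  rw [cj_apply, cj_apply, Complex.conj_conj]

theorem dv_cj (hV : IsOpen V) (v : ℝ × ℝ) (a : Sm V) : dv hV v (cj a) = cj (dv hV v a) := by
  apply Sm.ext'
  intro x
  rw [cj_apply, dv_apply, dv_apply]
  have h1 : fn (cj a) =ᶠ[nhds (x : ℝ × ℝ)] fun y => Complex.conjCLE (fn a y) := by
    filter_upwards [hV.mem_nhds x.2] with y hy
    rw [fn_mem _ hy, fn_mem _ hy]
    rfl
  rw [h1.fderiv_eq]
  have h2 := (Complex.conjCLE.hasFDerivAt (x := fn a x)).comp (x : ℝ × ℝ)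
    (fn_diff hV a x.2).hasFDerivAt
  have h3 : HasFDerivAt (fun y => Complex.conjCLE (fn a y)) _ (x : ℝ × ℝ) := h2
  rw [h3.fderiv]
  rfl

/-- Constants. -/
noncomputable def cst (z : ℂ) : Sm V := mk (fun _ => z) contDiffOn_const

theorem cst_apply (z : ℂ) (x : V) : (cst z : Sm V).1 x = z := rfl

theorem dv_cst (hV : IsOpen V) (v : ℝ × ℝ) (z : ℂ) : dv hV v (cst z : Sm V) = 0 := by
  apply Sm.ext'
  intro x
  rw [cst, dv_mk]
  simp

theorem isUnit_of {a : Sm V} (h : ∀ x : V, (a : V → ℂ) x ≠ 0) : IsUnit a := by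
  have hs : ContDiffOn ℝ ((⊤ : ℕ∞) : WithTop ℕ∞) (fun x => (fn a x)⁻¹) V :=
    (fn_smooth a).inv fun x hx => by
      rw [fn_mem a hx]
      exact h ⟨x, hx⟩
  refine IsUnit.of_mul_eq_one (mk _ hs) ?_
  apply Sm.ext'
  intro x
  show (a : V → ℂ) x * (fn a x)⁻¹ = 1
  rw [fn_mem a x.2]
  exact mul_inv_cancel₀ (h x)

theorem ne_of_isUnit {a : Sm V} (h : IsUnit a) (x : V) : (a : V → ℂ) x ≠ 0 := by
  obtain ⟨u, rfl⟩ := h
  intro h0
  have h1 : (u : Sm V) * ((u⁻¹ : (Sm V)ˣ) : Sm V) = 1 := u.mul_inv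
  have h2 := congrArg (fun b : Sm V => (b : V → ℂ) x) h1
  have h3 : (u : Sm V).1 x * ((u⁻¹ : (Sm V)ˣ) : Sm V).1 x = 1 := h2
  rw [h0, zero_mul] at h3
  exact zero_ne_one h3

theorem one_ne_zero_of {x : ℝ × ℝ} (hx : x ∈ V) : (1 : Sm V) ≠ 0 := by
  intro h
  have h2 := congrArg (fun b : Sm V => (b : V → ℂ) ⟨x, hx⟩) h
  exact one_ne_zero h2

/-- Restriction to a smaller open set. -/
noncomputable def res {W : Set (ℝ × ℝ)} (h : W ⊆ V) : Sm V →+* Sm W where
  toFun a := mk (fn a) ((fn_smooth a).mono h)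
  map_one' := by
    apply Sm.ext'
    intro x
    show fn (1 : Sm V) x = 1
    rw [fn_mem _ (h x.2)]
    rfl
  map_zero' := by
    apply Sm.ext'
    intro x
    show fn (0 : Sm V) x = 0
    rw [fn_mem _ (h x.2)]
    rfl
  map_mul' a b := by
    apply Sm.ext'
    intro x
    show fn (a * b) x = fn a x * fn b x
    rw [fn_mem _ (h x.2), fn_mem _ (h x.2), fn_mem _ (h x.2)]
    rfl
  map_add' a b := by
    apply Sm.ext'
    intro x
    show fn (a + b) x = fn a x + fn b x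
    rw [fn_mem _ (h x.2), fn_mem _ (h x.2), fn_mem _ (h x.2)]
    rfl

theorem res_apply {W : Set (ℝ × ℝ)} (h : W ⊆ V) (a : Sm V) (x : W) :
    (res h a : W → ℂ) x = (a : V → ℂ) ⟨x, h x.2⟩ := fn_mem a (h x.2)

theorem dv_res {W : Set (ℝ × ℝ)} (hV : IsOpen V) (hW : IsOpen W) (h : W ⊆ V) (v : ℝ × ℝ)
    (a : Sm V) : dv hW v (res h a) = res h (dv hV v a) := by
  apply Sm.ext'
  intro x
  rw [res_apply, dv_apply]
  have e : res h a = mk (fn a) ((fn_smooth a).mono h) := rfl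
  rw [← dv_apply hW, e, dv_mk]
  rfl

end Pool.Agent.Helper33.TT
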