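import Pool.Agent.Helper33.TT.Coord
import Pool.Agent.Helper33.TT.Ring
import Pool.Agent.Helper44.FT.Lap

/-!
# From the surface to the ring
-/

set_option autoImplicit false

namespace Pool.Agent.Helper33.TT

open Pool.Agent.Helper44.FT (Sf)

/-- Euclidean three space. -/
abbrev E3 : Type := EuclideanSpace ℝ (Fin 3)

/-- Smooth on `U`. -/
abbrev CD {F : Type*} [NormedAddCommGroup F] [NormedSpace ℝ F] (φ : ℝ × ℝ → F) (U : Set (ℝ × ℝ)) :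
    Prop := ContDiffOn ℝ ((⊤ : ℕ∞) : WithTop ℕ∞) φ U

variable {U : Set (ℝ × ℝ)}

/-- Real functions as elements of `Sm U`. -/
noncomputable def mr (R : ℝ × ℝ → ℝ) (hR : CD R U) : Sm U :=
  mk (fun p => (R p : ℂ)) (Complex.ofRealCLM.contDiff.comp_contDiffOn hR)

theorem mr_apply (R : ℝ × ℝ → ℝ) (hR : CD R U) (p : U) : (mr R hR : U → ℂ) p = (R p : ℂ) := rfl

theorem dv_mr (hU : IsOpen U) (R : ℝ × ℝ → ℝ) (hR : CD R U) (v : ℝ × ℝ) (p : U) :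
    (dv hU v (mr R hR) : U → ℂ) p = ((fderiv ℝ R p v : ℝ) : ℂ) := by
  have h0 : (dv hU v (mr R hR) : U → ℂ) p = fderiv ℝ (fun p => (R p : ℂ)) p v := dv_mk hU v _ _ p
  rw [h0]
  have hd : DifferentiableAt ℝ R p :=
    (hR.differentiableOn (by simp) p p.2).differentiableAt (hU.mem_nhds p.2)
  have h := Complex.ofRealCLM.hasFDerivAt.comp (p : ℝ × ℝ) hd.hasFDerivAt
  have h2 : HasFDerivAt (fun p => ((R p : ℝ) : ℂ)) _ (p : ℝ × ℝ) := h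
  rw [h2.fderiv]
  rfl

theorem cj_mr (R : ℝ × ℝ → ℝ) (hR : CD R U) : cj (mr R hR) = mr R hR := by
  apply Sm.ext'
  intro p
  rw [cj_apply, mr_apply, Complex.conj_ofReal]

theorem comp_smooth {φ : ℝ × ℝ → E3} (hφ : CD φ U) (k : Fin 3) : CD (fun p => φ p k) U :=
  (EuclideanSpace.proj (𝕜 := ℝ) k).contDiff.comp_contDiffOn hφ

/-- The components of a vector valued function. -/
noncomputable def emb (φ : ℝ × ℝ → E3) (hφ : CD φ U) : Fin 3 → Sm U := fun k =>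
  mr (fun p => φ p k) (comp_smooth hφ k)

theorem emb_apply (φ : ℝ × ℝ → E3) (hφ : CD φ U) (k : Fin 3) (p : U) :
    (emb φ hφ k : U → ℂ) p = ((φ p k : ℝ) : ℂ) := rfl

theorem fderiv_comp3 (hU : IsOpen U) {φ : ℝ × ℝ → E3} (hφ : CD φ U) (k : Fin 3) (v : ℝ × ℝ)
    {p : ℝ × ℝ} (hp : p ∈ U) : fderiv ℝ (fun p => φ p k) p v = fderiv ℝ φ p v k := by
  have hd : DifferentiableAt ℝ φ p :=
    (hφ.differentiableOn (by simp) p hp).differentiableAt (hU.mem_nhds hp)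
  have h := (EuclideanSpace.proj (𝕜 := ℝ) k : E3 →L[ℝ] ℝ).hasFDerivAt.comp p hd.hasFDerivAt
  have h2 : HasFDerivAt (fun p => φ p k) _ p := h
  rw [h2.fderiv]
  rfl

theorem dv_emb (hU : IsOpen U) (φ : ℝ × ℝ → E3) (hφ : CD φ U) (k : Fin 3) (v : ℝ × ℝ) (p : U) :
    (dv hU v (emb φ hφ k) : U → ℂ) p = ((fderiv ℝ φ p v k : ℝ) : ℂ) := by
  rw [emb, dv_mr, fderiv_comp3 hU hφ k v p.2]

theorem fderiv_smooth (hU : IsOpen U) {φ : ℝ × ℝ → E3} (hφ : CD φ U) (v : ℝ × ℝ) :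
    CD (fun p => fderiv ℝ φ p v) U :=
  (hφ.fderiv_of_isOpen hU (by simp)).clm_apply contDiffOn_const

theorem inner_smooth {φ ψ : ℝ × ℝ → E3} (hφ : CD φ U) (hψ : CD ψ U) :
    CD (fun p => inner ℝ (φ p) (ψ p)) U := ContDiffOn.inner ℝ hφ hψ

theorem inner3 (a b : E3) : inner ℝ a b = a 0 * b 0 + a 1 * b 1 + a 2 * b 2 := by
  rw [PiLp.inner_apply, Fin.sum_univ_three]
  simp [mul_comm]

theorem dp_emb (hU : IsOpen U) {φ ψ : ℝ × ℝ → E3} (hφ : CD φ U) (hψ : CD ψ U) (v w : ℝ × ℝ) (p : U) :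
    (dp (dD (dv hU v) (emb φ hφ)) (dD (dv hU w) (emb ψ hψ)) : Sm U).1 p =
      ((inner ℝ (fderiv ℝ φ p v) (fderiv ℝ ψ p w) : ℝ) : ℂ) := by
  rw [inner3]
  show (dv hU v (emb φ hφ 0) : U → ℂ) p * (dv hU w (emb ψ hψ 0) : U → ℂ) p +
    (dv hU v (emb φ hφ 1) : U → ℂ) p * (dv hU w (emb ψ hψ 1) : U → ℂ) p +
    (dv hU v (emb φ hφ 2) : U → ℂ) p * (dv hU w (emb ψ hψ 2) : U → ℂ) p = _
  simp only [dv_emb]
  push_cast
  ring

section

variable {f : ℝ × ℝ → E3} {E F G : ℝ × ℝ → ℝ} {L : (ℝ × ℝ → E3) → ℝ × ℝ → E3}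

theorem sm_E (S : Sf U f E F G L) : CD E U := by
  have : E = fun p => inner ℝ (fderiv ℝ f p ((1:ℝ), (0:ℝ))) (fderiv ℝ f p ((1:ℝ), (0:ℝ))) :=
    funext S.hE
  rw [this]
  exact inner_smooth (fderiv_smooth S.opn S.smooth _) (fderiv_smooth S.opn S.smooth _)

theorem sm_F (S : Sf U f E F G L) : CD F U := by
  have : F = fun p => inner ℝ (fderiv ℝ f p ((1:ℝ), (0:ℝ))) (fderiv ℝ f p ((0:ℝ), (1:ℝ))) :=
    funext S.hF
  rw [this]
  exact inner_smooth (fderiv_smooth S.opn S.smooth _) (fderiv_smooth S.opn S.smooth _)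

theorem sm_G (S : Sf U f E F G L) : CD G U := by
  have : G = fun p => inner ℝ (fderiv ℝ f p ((0:ℝ), (1:ℝ))) (fderiv ℝ f p ((0:ℝ), (1:ℝ))) :=
    funext S.hG
  rw [this]
  exact inner_smooth (fderiv_smooth S.opn S.smooth _) (fderiv_smooth S.opn S.smooth _)

theorem E_pos (S : Sf U f E F G L) {p : ℝ × ℝ} (hp : p ∈ U) : 0 < E p := by
  have h1 := S.det_pos hp
  have h2 : 0 ≤ E p := by rw [S.hE]; exact real_inner_self_nonneg
  rcases h2.lt_or_eq with h | h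
  · exact h
  · exfalso
    rw [← h, zero_mul] at h1
    nlinarith [sq_nonneg (F p)]

theorem sm_rE (S : Sf U f E F G L) : CD (fun p => Real.sqrt (E p)) U :=
  (sm_E S).sqrt fun _ hp => (E_pos S hp).ne'

theorem sm_rEi (S : Sf U f E F G L) : CD (fun p => (Real.sqrt (E p))⁻¹) U :=
  (sm_rE S).inv fun _ hp => (Real.sqrt_pos.2 (E_pos S hp)).ne'

theorem sm_W (S : Sf U f E F G L) : CD (fun p => Real.sqrt (E p * G p - F p ^ 2)) U :=
  (((sm_E S).mul (sm_G S)).sub ((sm_F S).pow 2)).sqrt fun _ hp => (S.det_pos hp).ne'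

theorem sm_Wi (S : Sf U f E F G L) : CD (fun p => (Real.sqrt (E p * G p - F p ^ 2))⁻¹) U :=
  (sm_W S).inv fun _ hp => (Real.sqrt_pos.2 (S.det_pos hp)).ne'

/-- The frame data of a surface. -/
theorem crd_of (S : Sf U f E F G L) :
    Crd (dv S.opn ((1 : ℝ), (0 : ℝ))) (dv S.opn ((0 : ℝ), (1 : ℝ))) (emb f S.smooth) (cst Complex.I)
      (cst (1 / 2)) (mr _ (sm_rE S)) (mr _ (sm_rEi S)) (mr _ (sm_W S)) (mr _ (sm_Wi S)) where
  comm g := dv_comm S.opn _ _ g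
  ii := by
    apply Sm.ext'
    intro p
    show Complex.I * Complex.I = -1
    exact Complex.I_mul_I
  i1 := dv_cst _ _ _
  i2 := dv_cst _ _ _
  h2 := by
    apply Sm.ext'
    intro p
    show (2 : ℂ) * (1 / 2) = 1
    norm_num
  ee := by
    apply Sm.ext'
    intro p
    rw [dp_emb, ← S.hE]
    show ((Real.sqrt (E p) : ℝ) : ℂ) * ((Real.sqrt (E p) : ℝ) : ℂ) = _
    rw [← Complex.ofReal_mul, Real.mul_self_sqrt (E_pos S p.2).le]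
  ei := by
    apply Sm.ext'
    intro p
    show ((Real.sqrt (E p) : ℝ) : ℂ) * (((Real.sqrt (E p))⁻¹ : ℝ) : ℂ) = 1
    rw [← Complex.ofReal_mul, mul_inv_cancel₀ (Real.sqrt_pos.2 (E_pos S p.2)).ne', Complex.ofReal_one]
  WW := by
    apply Sm.ext'
    intro p
    show ((Real.sqrt (E p * G p - F p ^ 2) : ℝ) : ℂ) * ((Real.sqrt (E p * G p - F p ^ 2) : ℝ) : ℂ) =
      (dp (dD (dv S.opn ((1 : ℝ), (0 : ℝ))) (emb f S.smooth)) (dD (dv S.opn ((1 : ℝ), (0 : ℝ))) (emb f S.smooth)) : Sm U).1 p *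
      (dp (dD (dv S.opn ((0 : ℝ), (1 : ℝ))) (emb f S.smooth)) (dD (dv S.opn ((0 : ℝ), (1 : ℝ))) (emb f S.smooth)) : Sm U).1 p -
      (dp (dD (dv S.opn ((1 : ℝ), (0 : ℝ))) (emb f S.smooth)) (dD (dv S.opn ((0 : ℝ), (1 : ℝ))) (emb f S.smooth)) : Sm U).1 p ^ 2
    rw [dp_emb, dp_emb, dp_emb, ← S.hE, ← S.hF, ← S.hG, ← Complex.ofReal_mul,
      Real.mul_self_sqrt (S.det_pos p.2).le]
    push_cast
    ring
  Wi := by
    apply Sm.ext'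
    intro p
    show ((Real.sqrt (E p * G p - F p ^ 2) : ℝ) : ℂ) *
      (((Real.sqrt (E p * G p - F p ^ 2))⁻¹ : ℝ) : ℂ) = 1
    rw [← Complex.ofReal_mul, mul_inv_cancel₀ (Real.sqrt_pos.2 (S.det_pos p.2)).ne',
      Complex.ofReal_one]

/-- The Laplace operator in the ring. -/
theorem flux_smooth (S : Sf U f E F G L) {φ : ℝ × ℝ → E3} (hφ : CD φ U) {A B : ℝ × ℝ → ℝ}
    (hA : CD A U) (hB : CD B U) (v w : ℝ × ℝ) :
    CD (fun q => (Real.sqrt (E q * G q - F q ^ 2))⁻¹ • (A q • fderiv ℝ φ q v - B q • fderiv ℝ φ q w))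
      U :=
  (sm_Wi S).smul ((hA.smul (fderiv_smooth S.opn hφ v)).sub (hB.smul (fderiv_smooth S.opn hφ w)))

theorem lap_smooth (S : Sf U f E F G L) {φ : ℝ × ℝ → E3} (hφ : CD φ U) : CD (L φ) U := by
  have h := ((sm_Wi S).neg.smul
    ((fderiv_smooth S.opn (flux_smooth S hφ (sm_G S) (sm_F S) ((1:ℝ), (0:ℝ)) ((0:ℝ), (1:ℝ)))
        ((1:ℝ), (0:ℝ))).add
      (fderiv_smooth S.opn (flux_smooth S hφ (sm_E S) (sm_F S) ((0:ℝ), (1:ℝ)) ((1:ℝ), (0:ℝ)))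
        ((0:ℝ), (1:ℝ)))))
  exact h.congr fun p _ => S.hL φ p

/-- The Laplace operator in the ring. -/
theorem lap_ring (S : Sf U f E F G L) {φ : ℝ × ℝ → E3} (hφ : CD φ U) (k : Fin 3) :
    lapC (dv S.opn ((1 : ℝ), (0 : ℝ))) (dv S.opn ((0 : ℝ), (1 : ℝ))) (emb f S.smooth)
      (mr _ (sm_Wi S)) (emb φ hφ k) = -emb (L φ) (lap_smooth S hφ) k := by
  have hfl : ∀ (A B : ℝ × ℝ → ℝ) (hA : CD A U) (hB : CD B U) (v w : ℝ × ℝ) (a b : Sm U),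
      (∀ p : U, a.1 p = (A p : ℂ)) → (∀ p : U, b.1 p = (B p : ℂ)) →
      mr _ (sm_Wi S) * (a * dv S.opn v (emb φ hφ k) - b * dv S.opn w (emb φ hφ k)) =
        emb _ (flux_smooth S hφ hA hB v w) k := by
    intro A B hA hB v w a b ha hb
    apply Sm.ext'
    intro p
    show (((Real.sqrt (E p * G p - F p ^ 2))⁻¹ : ℝ) : ℂ) *
      (a.1 p * (dv S.opn v (emb φ hφ k)).1 p - b.1 p * (dv S.opn w (emb φ hφ k)).1 p) = _
    rw [ha, hb, dv_emb, dv_emb, emb_apply]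
    simp
  unfold lapC
  have dpE : ∀ p : U, (dp (dD (dv S.opn ((1 : ℝ), (0 : ℝ))) (emb f S.smooth))
      (dD (dv S.opn ((1 : ℝ), (0 : ℝ))) (emb f S.smooth)) : Sm U).1 p = (E p : ℂ) := fun p => by
    rw [dp_emb, ← S.hE]
  have dpF : ∀ p : U, (dp (dD (dv S.opn ((1 : ℝ), (0 : ℝ))) (emb f S.smooth))
      (dD (dv S.opn ((0 : ℝ), (1 : ℝ))) (emb f S.smooth)) : Sm U).1 p = (F p : ℂ) := fun p => by
    rw [dp_emb, ← S.hF]
  have dpG : ∀ p : U, (dp (dD (dv S.opn ((0 : ℝ), (1 : ℝ))) (emb f S.smooth))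
      (dD (dv S.opn ((0 : ℝ), (1 : ℝ))) (emb f S.smooth)) : Sm U).1 p = (G p : ℂ) := fun p => by
    rw [dp_emb, ← S.hG]
  rw [hfl G F (sm_G S) (sm_F S) _ _ _ _ dpG dpF, hfl E F (sm_E S) (sm_F S) _ _ _ _ dpE dpF]
  apply Sm.ext'
  intro p
  show (((Real.sqrt (E p * G p - F p ^ 2))⁻¹ : ℝ) : ℂ) *
    ((dv S.opn ((1 : ℝ), (0 : ℝ)) (emb _ _ k)).1 p + (dv S.opn ((0 : ℝ), (1 : ℝ)) (emb _ _ k)).1 p) =
    -((L φ p k : ℝ) : ℂ)
  rw [dv_emb, dv_emb, S.hL φ p]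
  simp
  ring

end

end Pool.Agent.Helper33.TT
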