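import Pool.Agent.Helper33.TT.SysOf

/-!
# The complex null frame of a surface in coordinates

`d1`, `d2`: the partial derivatives, `e`, `W` square roots of `E` and `E G - F²`, `i² = -1`, `2 h = 1`.
-/

set_option autoImplicit false

namespace Pool.Agent.Helper33.TT

variable {A : Type*} [CommRing A] [Algebra ℚ A]

/-- First order data in coordinates. -/
structure Crd (d1 d2 : Derivation ℚ A A) (x : Fin 3 → A) (i h e ei W Wi : A) : Prop where
  comm : ∀ f, d1 (d2 f) = d2 (d1 f)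
  ii : i * i = -1
  i1 : d1 i = 0
  i2 : d2 i = 0
  h2 : 2 * h = 1
  ee : e * e = dp (dD d1 x) (dD d1 x)
  ei : e * ei = 1
  WW : W * W = dp (dD d1 x) (dD d1 x) * dp (dD d2 x) (dD d2 x) - dp (dD d1 x) (dD d2 x) ^ 2
  Wi : W * Wi = 1

/-- Coefficients of the complex derivatives. -/
def cA (d1 d2 : Derivation ℚ A A) (x : Fin 3 → A) (i h ei Wi : A) : A :=
  h * (ei + i * dp (dD d1 x) (dD d2 x) * ei * Wi)

/-- Coefficients of the complex derivatives. -/
def cB (i h e Wi : A) : A := -(h * i * e * Wi)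

/-- The complex derivative (for `-i` instead of `i`: the conjugate one). -/
def cD (d1 d2 : Derivation ℚ A A) (x : Fin 3 → A) (i h e ei Wi : A) : Derivation ℚ A A :=
  cA d1 d2 x i h ei Wi • d1 + cB i h e Wi • d2

theorem cD_apply (d1 d2 : Derivation ℚ A A) (x : Fin 3 → A) (i h e ei Wi : A) (f : A) :
    cD d1 d2 x i h e ei Wi f = cA d1 d2 x i h ei Wi * d1 f + cB i h e Wi * d2 f := by
  simp [cD]

/-- The unit normal. -/
def nrm (d1 d2 : Derivation ℚ A A) (x : Fin 3 → A) (Wi : A) : Fin 3 → A :=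
  ![Wi * (d1 (x 1) * d2 (x 2) - d1 (x 2) * d2 (x 1)), Wi * (d1 (x 2) * d2 (x 0) - d1 (x 0) * d2 (x 2)),
    Wi * (d1 (x 0) * d2 (x 1) - d1 (x 1) * d2 (x 0))]

/-- Connection coefficient. -/
def cC (d1 d2 : Derivation ℚ A A) (x : Fin 3 → A) (i h e ei W Wi : A) : A :=
  -(2 * i * W * (cA d1 d2 x i h ei Wi *
      (cD d1 d2 x (-i) h e ei Wi (cB i h e Wi) - cD d1 d2 x i h e ei Wi (cB (-i) h e Wi)) -
    cB i h e Wi *
      (cD d1 d2 x (-i) h e ei Wi (cA d1 d2 x i h ei Wi) -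
        cD d1 d2 x i h e ei Wi (cA d1 d2 x (-i) h ei Wi))))

/-- The Laplace operator in coordinates. -/
def lapC (d1 d2 : Derivation ℚ A A) (x : Fin 3 → A) (Wi : A) (f : A) : A :=
  Wi * (d1 (Wi * (dp (dD d2 x) (dD d2 x) * d1 f - dp (dD d1 x) (dD d2 x) * d2 f)) +
    d2 (Wi * (dp (dD d1 x) (dD d1 x) * d2 f - dp (dD d1 x) (dD d2 x) * d1 f)))

variable {d1 d2 : Derivation ℚ A A} {x : Fin 3 → A} {i h e ei W Wi : A}

theorem Crd.neg (C : Crd d1 d2 x i h e ei W Wi) : Crd d1 d2 x (-i) h e ei W Wi :=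
  { comm := C.comm
    ii := by rw [neg_mul_neg]; exact C.ii
    i1 := by rw [map_neg, C.i1, neg_zero]
    i2 := by rw [map_neg, C.i2, neg_zero]
    h2 := C.h2
    ee := C.ee
    ei := C.ei
    WW := C.WW
    Wi := C.Wi }

theorem Crd.k1 (C : Crd d1 d2 x i h e ei W Wi) : ei ^ 2 * dp (dD d1 x) (dD d1 x) = 1 := by
  rw [← C.ee]
  linear_combination (e * ei + 1) * C.ei

theorem Crd.k2 (C : Crd d1 d2 x i h e ei W Wi) :
    Wi ^ 2 * (dp (dD d1 x) (dD d1 x) * dp (dD d2 x) (dD d2 x) - dp (dD d1 x) (dD d2 x) ^ 2) = 1 := by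
  rw [← C.WW]
  linear_combination (W * Wi + 1) * C.Wi

theorem Crd.h0 (C : Crd d1 d2 x i h e ei W Wi) : d1 h = 0 ∧ d2 h = 0 := by
  have a : ∀ D : Derivation ℚ A A, D h = 0 := by
    intro D
    have h1 := congrArg D C.h2
    have h2 : D (2 : A) = 0 := by simpa using D.map_natCast 2
    rw [Derivation.leibniz, h2, smul_zero, add_zero, smul_eq_mul, Derivation.map_one_eq_zero] at h1
    have h3 := congrArg (fun z => h * z) h1
    simp only [mul_zero] at h3
    linear_combination h3 - D h * C.h2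
  exact ⟨a d1, a d2⟩

/-- The determinant of the coefficients. -/
theorem Crd.det (C : Crd d1 d2 x i h e ei W Wi) :
    cA d1 d2 x i h ei Wi * cB (-i) h e Wi - cA d1 d2 x (-i) h ei Wi * cB i h e Wi = h * i * Wi := by
  unfold cA cB
  linear_combination (2 * h ^ 2 * i * Wi) * C.ei + (h * i * Wi) * C.h2

theorem Crd.dx (C : Crd d1 d2 x i h e ei W Wi) :
    dp (dD (cD d1 d2 x i h e ei Wi) x) (dD (cD d1 d2 x i h e ei Wi) x) = 0 := by
  have h1 : dp (dD (cD d1 d2 x i h e ei Wi) x) (dD (cD d1 d2 x i h e ei Wi) x) =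
      cA d1 d2 x i h ei Wi ^ 2 * dp (dD d1 x) (dD d1 x) +
        2 * cA d1 d2 x i h ei Wi * cB i h e Wi * dp (dD d1 x) (dD d2 x) +
        cB i h e Wi ^ 2 * dp (dD d2 x) (dD d2 x) := by
    simp only [dp, dD, cD_apply]
    ring
  rw [h1]
  have k1 := C.k1
  have k2 := C.k2
  have r3 := C.ee
  unfold cA cB
  set E := dp (dD d1 x) (dD d1 x)
  set F := dp (dD d1 x) (dD d2 x)
  set G := dp (dD d2 x) (dD d2 x)
  linear_combination h ^ 2 * ((1 + i * F * Wi) ^ 2 * k1 - 2 * i * F * Wi * (1 + i * F * Wi) * C.ei +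
    i ^ 2 * Wi ^ 2 * G * r3 + C.ii + i ^ 2 * k2)

theorem Crd.dxx (C : Crd d1 d2 x i h e ei W Wi) :
    2 * dp (dD (cD d1 d2 x i h e ei Wi) x) (dD (cD d1 d2 x (-i) h e ei Wi) x) = 1 := by
  have h1 : dp (dD (cD d1 d2 x i h e ei Wi) x) (dD (cD d1 d2 x (-i) h e ei Wi) x) =
      cA d1 d2 x i h ei Wi * cA d1 d2 x (-i) h ei Wi * dp (dD d1 x) (dD d1 x) +
        (cA d1 d2 x i h ei Wi * cB (-i) h e Wi + cA d1 d2 x (-i) h ei Wi * cB i h e Wi) *
          dp (dD d1 x) (dD d2 x) +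
        cB i h e Wi * cB (-i) h e Wi * dp (dD d2 x) (dD d2 x) := by
    simp only [dp, dD, cD_apply]
    ring
  rw [h1]
  have k1 := C.k1
  have k2 := C.k2
  have r3 := C.ee
  unfold cA cB
  set E := dp (dD d1 x) (dD d1 x)
  set F := dp (dD d1 x) (dD d2 x)
  set G := dp (dD d2 x) (dD d2 x)
  linear_combination 2 * h ^ 2 * ((1 - i ^ 2 * F ^ 2 * Wi ^ 2) * k1 +
    2 * i ^ 2 * F ^ 2 * Wi ^ 2 * C.ei - i ^ 2 * Wi ^ 2 * G * r3 - C.ii - i ^ 2 * k2) +
    (2 * h + 1) * C.h2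

theorem Crd.nn (C : Crd d1 d2 x i h e ei W Wi) : dp (nrm d1 d2 x Wi) (nrm d1 d2 x Wi) = 1 := by
  have k2 := C.k2
  simp only [dp, dD] at k2
  simp only [dp, nrm, Matrix.cons_val_zero, Matrix.cons_val_one, Matrix.cons_val_two, Matrix.head_cons,
    Matrix.tail_cons, Matrix.cons_val]
  linear_combination k2

theorem xnA (i h e ei Wi : A) :
    dp (dD (cD d1 d2 x i h e ei Wi) x) (nrm d1 d2 x Wi) = 0 := by
  simp only [dp, dD, nrm, cD_apply, Matrix.cons_val_zero, Matrix.cons_val_one, Matrix.cons_val_two,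
    Matrix.head_cons, Matrix.tail_cons, Matrix.cons_val]
  ring

theorem Crd.comm' (C : Crd d1 d2 x i h e ei W Wi) (f : A) :
    cD d1 d2 x (-i) h e ei Wi (cD d1 d2 x i h e ei Wi f) -
        cD d1 d2 x i h e ei Wi (cD d1 d2 x (-i) h e ei Wi f) =
      -cC d1 d2 x (-i) h e ei W Wi * cD d1 d2 x i h e ei Wi f +
        cC d1 d2 x i h e ei W Wi * cD d1 d2 x (-i) h e ei Wi f := by
  have hdet := C.det
  have hr : 2 * (h * i * Wi) * (i * W) = -1 := by
    linear_combination (2 * h * Wi * W) * C.ii - (Wi * W) * C.h2 - C.Wi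
  have hc := C.comm f
  unfold cC
  simp only [neg_neg i, cD_apply, map_add, Derivation.leibniz, smul_eq_mul]
  rw [hc]
  generalize hA : cA d1 d2 x i h ei Wi = α at *
  generalize hA' : cA d1 d2 x (-i) h ei Wi = α' at *
  generalize hB : cB i h e Wi = γ at *
  generalize hB' : cB (-i) h e Wi = γ' at *
  linear_combination ((α' * d1 α + γ' * d2 α - α * d1 α' - γ * d2 α') * d1 f +
    (α' * d1 γ + γ' * d2 γ - α * d1 γ' - γ * d2 γ') * d2 f) * hr +
    (2 * (i * W) * ((α' * d1 α + γ' * d2 α - α * d1 α' - γ * d2 α') * d1 f +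
    (α' * d1 γ + γ' * d2 γ - α * d1 γ' - γ * d2 γ') * d2 f)) * hdet

theorem Crd.fr (C : Crd d1 d2 x i h e ei W Wi) :
    Fr (cD d1 d2 x i h e ei Wi) (cD d1 d2 x (-i) h e ei Wi) x (nrm d1 d2 x Wi)
      (cC d1 d2 x i h e ei W Wi) (cC d1 d2 x (-i) h e ei W Wi) :=
  { comm := C.comm'
    xx := C.dx
    xx' := C.neg.dx
    x1 := C.dxx
    NN := C.nn
    xN := xnA i h e ei Wi
    xN' := xnA (-i) h e ei Wi }

/-- Divergence. -/
theorem Crd.div (C : Crd d1 d2 x i h e ei W Wi) :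
    d1 (W * cA d1 d2 x i h ei Wi) + d2 (W * cB i h e Wi) = W * cC d1 d2 x i h e ei W Wi := by
  have hdet := C.det
  obtain ⟨z1, z2⟩ := C.h0
  have hr : 2 * (h * i * Wi) * (i * W) = -1 := by
    linear_combination (2 * h * Wi * W) * C.ii - (Wi * W) * C.h2 - C.Wi
  have hu : IsUnit (h * i * Wi) := by
    refine IsUnit.of_mul_eq_one (-(2 * (i * W))) ?_
    linear_combination -hr
  -- W * det is constant
  have hk : W * (cA d1 d2 x i h ei Wi * cB (-i) h e Wi - cA d1 d2 x (-i) h ei Wi * cB i h e Wi) =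
      h * i := by
    rw [hdet]
    linear_combination (h * i) * C.Wi
  have hk1 := congrArg d1 hk
  have hk2 := congrArg d2 hk
  have hcdef : W * cC d1 d2 x i h e ei W Wi = W * cC d1 d2 x i h e ei W Wi := rfl
  conv_rhs at hcdef => unfold cC
  simp only [Derivation.leibniz, smul_eq_mul, map_sub, C.i1, C.i2, z1, z2, mul_zero, add_zero,
    cD_apply] at hk1 hk2 hcdef ⊢
  generalize hA : cA d1 d2 x i h ei Wi = α at *
  generalize hA' : cA d1 d2 x (-i) h ei Wi = α' at *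
  generalize hB : cB i h e Wi = γ at *
  generalize hB' : cB (-i) h e Wi = γ' at *
  have key : (h * i * Wi) * (W * d1 α + α * d1 W + (W * d2 γ + γ * d2 W) -
      W * cC d1 d2 x i h e ei W Wi) = 0 := by
    rw [hcdef]
    linear_combination α * hk1 + γ * hk2 + (W * (α * (α' * d1 γ + γ' * d2 γ - (α * d1 γ' + γ * d2 γ')) -
      γ * (α' * d1 α + γ' * d2 α - (α * d1 α' + γ * d2 α')))) * hr -
      (W * d1 α + α * d1 W + (W * d2 γ + γ * d2 W)) * hdet
  have h3 := unit_cancel hu key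
  linear_combination h3

/-- The Laplace operator in the frame. -/
theorem Crd.lap (C : Crd d1 d2 x i h e ei W Wi) (f : A) :
    lapC d1 d2 x Wi f = 4 * (cD d1 d2 x (-i) h e ei Wi (cD d1 d2 x i h e ei Wi f) +
      cC d1 d2 x (-i) h e ei W Wi * cD d1 d2 x i h e ei Wi f) := by
  have k1 := C.k1
  have k2 := C.k2
  have r3 := C.ee
  have r4 := C.ei
  have r5 := C.WW
  have r6 := C.Wi
  have dv := C.div
  have dv' := C.neg.div
  have cm := C.comm' f
  have P1 : 4 * W * (cA d1 d2 x i h ei Wi * cA d1 d2 x (-i) h ei Wi) =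
      Wi * dp (dD d2 x) (dD d2 x) := by
    unfold cA
    set E := dp (dD d1 x) (dD d1 x)
    set F := dp (dD d1 x) (dD d2 x)
    set G := dp (dD d2 x) (dD d2 x)
    linear_combination (-4 * W * h ^ 2 * ei ^ 2 * F ^ 2 * Wi ^ 2) * C.ii +
      ((2 * h + 1) * W * ei ^ 2 * (1 + F ^ 2 * Wi ^ 2)) * C.h2 +
      (F ^ 2 * Wi * ei ^ 2 - W * ei ^ 2) * r6 + Wi * ei ^ 2 * r5 + Wi * G * k1
  have P2 : 2 * W * (cA d1 d2 x i h ei Wi * cB (-i) h e Wi + cA d1 d2 x (-i) h ei Wi * cB i h e Wi) =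
      -(Wi * dp (dD d1 x) (dD d2 x)) := by
    unfold cA cB
    set F := dp (dD d1 x) (dD d2 x)
    linear_combination (4 * h ^ 2 * F * e * ei * W * Wi ^ 2) * C.ii -
      ((2 * h + 1) * F * e * ei * W * Wi ^ 2) * C.h2 - F * W * Wi ^ 2 * r4 - F * Wi * r6
  have P3 : 4 * W * (cB i h e Wi * cB (-i) h e Wi) = Wi * dp (dD d1 x) (dD d1 x) := by
    unfold cB
    set E := dp (dD d1 x) (dD d1 x)
    linear_combination (-4 * h ^ 2 * e ^ 2 * W * Wi ^ 2) * C.ii +
      ((2 * h + 1) * e ^ 2 * W * Wi ^ 2) * C.h2 + e ^ 2 * Wi * r6 + Wi * r3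
  have u1 : Wi * (dp (dD d2 x) (dD d2 x) * d1 f - dp (dD d1 x) (dD d2 x) * d2 f) =
      2 * ((W * cA d1 d2 x i h ei Wi) * cD d1 d2 x (-i) h e ei Wi f +
        (W * cA d1 d2 x (-i) h ei Wi) * cD d1 d2 x i h e ei Wi f) := by
    simp only [cD_apply]
    linear_combination -d1 f * P1 - d2 f * P2
  have u2 : Wi * (dp (dD d1 x) (dD d1 x) * d2 f - dp (dD d1 x) (dD d2 x) * d1 f) =
      2 * ((W * cB i h e Wi) * cD d1 d2 x (-i) h e ei Wi f +
        (W * cB (-i) h e Wi) * cD d1 d2 x i h e ei Wi f) := by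
    simp only [cD_apply]
    linear_combination -d1 f * P2 - d2 f * P3
  unfold lapC
  rw [u1, u2]
  have t1 : d1 (2 : A) = 0 := by simpa using d1.map_natCast 2
  have t2 : d2 (2 : A) = 0 := by simpa using d2.map_natCast 2
  have e1 : ∀ g : A, cD d1 d2 x i h e ei Wi g = cA d1 d2 x i h ei Wi * d1 g + cB i h e Wi * d2 g :=
    fun g => cD_apply _ _ _ _ _ _ _ _ _
  have e2 : ∀ g : A, cD d1 d2 x (-i) h e ei Wi g =
      cA d1 d2 x (-i) h ei Wi * d1 g + cB (-i) h e Wi * d2 g := fun g => cD_apply _ _ _ _ _ _ _ _ _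
  have m1 := e1 (cD d1 d2 x (-i) h e ei Wi f)
  have m2 := e2 (cD d1 d2 x i h e ei Wi f)
  generalize hX : cD d1 d2 x i h e ei Wi f = X at *
  generalize hX' : cD d1 d2 x (-i) h e ei Wi f = X' at *
  generalize hY : cD d1 d2 x i h e ei Wi X' = Y at *
  generalize hY' : cD d1 d2 x (-i) h e ei Wi X = Y' at *
  rw [Derivation.leibniz d1 2, Derivation.leibniz d2 2, t1, t2, smul_zero, smul_zero, add_zero, add_zero,
    smul_eq_mul, smul_eq_mul, map_add, map_add, Derivation.leibniz d1 (W * cA d1 d2 x i h ei Wi),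
    Derivation.leibniz d1 (W * cA d1 d2 x (-i) h ei Wi), Derivation.leibniz d2 (W * cB i h e Wi),
    Derivation.leibniz d2 (W * cB (-i) h e Wi)]
  simp only [smul_eq_mul]
  linear_combination (2 * Wi * X') * dv + (2 * Wi * X) * dv' - (2 * Wi * W) * m1 - (2 * Wi * W) * m2 -
    2 * cm + (2 * Y + 2 * Y' + 2 * cC d1 d2 x i h e ei W Wi * X' +
      2 * cC d1 d2 x (-i) h e ei W Wi * X) * r6

end Pool.Agent.Helper33.TT
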