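import Pool.Agent.Helper44.FT.RealC

/-!
# The profile curve
-/

set_option autoImplicit false

namespace Pool.Agent.Helper33.TT

open Pool.Agent.Helper44.FT MvPolynomial ComplexConjugate

section

variable {k : ℕ} {c0 : Fin (k + 1) → ℝ} {I : Set ℝ} {f g f1 g1 κ h : ℝ → ℝ}
  {p q p1 q1 : ℕ → ℝ → ℝ}

private noncomputable def stR' (c0 : Fin (k + 1) → ℝ) (f f1 g1 : ℝ → ℝ) (p q p1 q1 : ℕ → ℝ → ℝ) (s : ℝ) :
    Va k → ℂ :=
  stt c0 (f s) (f1 s) (g1 s) (fun n => p n s) (fun n => q n s) (fun n => p1 n s) (fun n => q1 n s)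

private theorem stR_a' (D : Data k c0 I f g f1 g1 κ h p q p1 q1) {s : ℝ} (hs : s ∈ I) :
    stR' c0 f f1 g1 p q p1 q1 s (.a 0) = ⟨0, h s⟩ := by
  have hp := D.p0 s hs
  have hq := D.q0 s hs
  have hu := D.unit s hs
  change (⟨p ((0 : Fin (k + 1)) : ℕ) s, q ((0 : Fin (k + 1)) : ℕ) s⟩ : ℂ) * conj (⟨f1 s, g1 s⟩ : ℂ) = _
  rw [Fin.val_zero, hp, hq]
  apply Complex.ext
  · simp only [Complex.mul_re, Complex.conj_re, Complex.conj_im]
    ring
  · simp only [Complex.mul_im, Complex.conj_re, Complex.conj_im]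
    linear_combination (h s) * hu

/-- The mean curvature of a surface of revolution of finite type is constant. -/
theorem h_deriv (D : Data k c0 I f g f1 g1 κ h p q p1 q1) {s : ℝ} (hs : s ∈ I) :
    HasDerivAt h 0 s := by
  have h1 := real_deriv D (X (.a 0)) hs
  rw [dv_X, mean_const (real_W D hs) rfl] at h1
  simp only [eval_X] at h1
  have h2 : HasDerivAt (fun s => Complex.imCLM (stR' c0 f f1 g1 p q p1 q1 s (.a 0))) (Complex.imCLM 0) s :=
    Complex.imCLM.hasFDerivAt.comp_hasDerivAt s h1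
  rw [map_zero] at h2
  refine h2.congr_of_eventuallyEq ?_
  filter_upwards [D.opn.mem_nhds hs] with t ht
  rw [stR_a' D ht]
  rfl

end

/-- The system along a gradient line. -/
structure OD (I : Set ℝ) (α β : ℝ) (J τ η P v w v1 w1 : ℝ → ℝ) : Prop where
  opn : IsOpen I
  con : IsPreconnected I
  η0 : ∀ s ∈ I, 0 < η s
  τ0 : ∀ s ∈ I, τ s ≠ 0
  dJ : ∀ s ∈ I, HasDerivAt J (2 * η s) s
  dτ : ∀ s ∈ I, HasDerivAt τ ((τ s * (P s - v s - 2 * J s * w s) - η s ^ 2) / η s) s
  dη : ∀ s ∈ I, HasDerivAt η (v s + τ s * w s) s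
  dP : ∀ s ∈ I, HasDerivAt P (-(4 * (J s + τ s) * (2 * J s + τ s) * η s)) s
  dv : ∀ s ∈ I, HasDerivAt v (v1 s) s
  dw : ∀ s ∈ I, HasDerivAt w (w1 s) s
  hw1 : ∀ s ∈ I, τ s * w1 s = v1 s + 2 * (2 * J s ^ 2 - 2 * τ s ^ 2 - w s) * η s
  hW : ∀ s ∈ I, τ s ^ 2 * w s = β + J s * P s - 3 * η s ^ 2 - 2 * J s * v s
  h3 : ∀ s ∈ I, 3 * η s ^ 2 = τ s * (P s + v s - 2 * J s * w s - 2 * τ s * w s)
  hv : ∀ s ∈ I, v s = 2 * J s ^ 3 + 2 * J s * τ s ^ 2 - α * J s - P s

section

variable {I : Set ℝ} {α β : ℝ} {J τ η P v w v1 w1 : ℝ → ℝ}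

/-- The geodesic curvature of the parallels. -/
noncomputable def Bg (τ η v w : ℝ → ℝ) (s : ℝ) : ℝ := (v s - τ s * w s) / η s

/-- The curvature of the parallels. -/
noncomputable def lg (J τ : ℝ → ℝ) (s : ℝ) : ℝ := 2 * (J s - τ s)

/-- The curvature of the profile curve. -/
noncomputable def kg (J τ : ℝ → ℝ) (s : ℝ) : ℝ := 2 * (J s + τ s)

/-- The radius. -/
noncomputable def Rg (J τ η v w : ℝ → ℝ) (s : ℝ) : ℝ :=
  (Real.sqrt (Bg τ η v w s ^ 2 + lg J τ s ^ 2))⁻¹

theorem OD.dB (O : OD I α β J τ η P v w v1 w1) {s : ℝ} (hs : s ∈ I) :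
    HasDerivAt (Bg τ η v w) (-(kg J τ s * lg J τ s) - Bg τ η v w s ^ 2) s := by
  have h0 := (O.η0 s hs).ne'
  have h := ((O.dv s hs).sub ((O.dτ s hs).mul (O.dw s hs))).div (O.dη s hs) h0
  refine h.congr_deriv ?_
  have hw1 := O.hw1 s hs
  have h3 := O.h3 s hs
  have hη2 : η s ^ 2 ≠ 0 := pow_ne_zero 2 h0
  simp only [Bg, lg, kg, Pi.sub_apply, Pi.mul_apply]
  field_simp
  linear_combination (-(η s)) * hw1 + (w s) * h3

theorem OD.dl (O : OD I α β J τ η P v w v1 w1) {s : ℝ} (hs : s ∈ I) :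
    HasDerivAt (lg J τ) (Bg τ η v w s * (kg J τ s - lg J τ s)) s := by
  have h0 := (O.η0 s hs).ne'
  have h := ((O.dJ s hs).sub (O.dτ s hs)).const_mul 2
  refine h.congr_deriv ?_
  have h3 := O.h3 s hs
  simp only [Bg, lg, kg]
  field_simp
  linear_combination h3

theorem OD.dk (O : OD I α β J τ η P v w v1 w1) {s : ℝ} (hs : s ∈ I) :
    HasDerivAt (kg J τ) (2 * (2 * η s + (τ s * (P s - v s - 2 * J s * w s) - η s ^ 2) / η s)) s :=
  ((O.dJ s hs).add (O.dτ s hs)).const_mul 2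

theorem OD.hβ (O : OD I α β J τ η P v w v1 w1) {s : ℝ} (hs : s ∈ I) :
    2 * β = Bg τ η v w s * (4 * J s + 2 * τ s) * η s - P s * lg J τ s := by
  have h0 := (O.η0 s hs).ne'
  have h3 := O.h3 s hs
  have hW := O.hW s hs
  simp only [Bg, lg]
  field_simp
  linear_combination (-2) * hW + 2 * h3

theorem OD.pos (O : OD I α β J τ η P v w v1 w1) (hβ : β ≠ 0) {s : ℝ} (hs : s ∈ I) :
    0 < Bg τ η v w s ^ 2 + lg J τ s ^ 2 := by
  by_contra h
  have h1 : Bg τ η v w s = 0 := by nlinarith [sq_nonneg (Bg τ η v w s), sq_nonneg (lg J τ s)]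
  have h2 : lg J τ s = 0 := by nlinarith [sq_nonneg (Bg τ η v w s), sq_nonneg (lg J τ s)]
  have h3 := O.hβ hs
  rw [h1, h2] at h3
  apply hβ
  linarith

theorem OD.Rpos (O : OD I α β J τ η P v w v1 w1) (hβ : β ≠ 0) {s : ℝ} (hs : s ∈ I) :
    0 < Rg J τ η v w s := inv_pos.2 (Real.sqrt_pos.2 (O.pos hβ hs))

theorem OD.R2 (O : OD I α β J τ η P v w v1 w1) (hβ : β ≠ 0) {s : ℝ} (hs : s ∈ I) :
    Rg J τ η v w s ^ 2 * (Bg τ η v w s ^ 2 + lg J τ s ^ 2) = 1 := by
  have h := O.pos hβ hs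
  unfold Rg
  rw [inv_pow, Real.sq_sqrt h.le, inv_mul_cancel₀ h.ne']

theorem OD.dR (O : OD I α β J τ η P v w v1 w1) (hβ : β ≠ 0) {s : ℝ} (hs : s ∈ I) :
    HasDerivAt (Rg J τ η v w) (Bg τ η v w s * Rg J τ η v w s) s := by
  have h := O.pos hβ hs
  have h1 := (((O.dB hs).pow 2).add ((O.dl hs).pow 2)).sqrt h.ne'
  have h2 := h1.inv (Real.sqrt_pos.2 h).ne'
  refine h2.congr_deriv ?_
  have h3 : Real.sqrt (Bg τ η v w s ^ 2 + lg J τ s ^ 2) ^ 2 = Bg τ η v w s ^ 2 + lg J τ s ^ 2 :=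
    Real.sq_sqrt h.le
  have h4 := (Real.sqrt_pos.2 h).ne'
  unfold Rg
  simp only [Pi.add_apply, Pi.pow_apply]
  generalize Real.sqrt (Bg τ η v w s ^ 2 + lg J τ s ^ 2) = S at *
  generalize Bg τ η v w s = b at *
  generalize lg J τ s = l at *
  generalize kg J τ s = k at *
  field_simp
  push_cast
  linear_combination (-(2 * b)) * h3

theorem ode_contra (O : OD I α β J τ η P v w v1 w1) (hβ : β ≠ 0) {s0 : ℝ} (hs0 : s0 ∈ I) :
    False := by
  set B := Bg τ η v w with hB
  set l := lg J τ with hl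
  set k := kg J τ with hk
  set R := Rg J τ η v w with hR
  have dB : ∀ s ∈ I, HasDerivAt B (-(k s * l s) - B s ^ 2) s := fun s hs => O.dB hs
  have dl : ∀ s ∈ I, HasDerivAt l (B s * (k s - l s)) s := fun s hs => O.dl hs
  have dk : ∀ s ∈ I, HasDerivAt k
    (2 * (2 * η s + (τ s * (P s - v s - 2 * J s * w s) - η s ^ 2) / η s)) s := fun s hs => O.dk hs
  have dR : ∀ s ∈ I, HasDerivAt R (B s * R s) s := fun s hs => O.dR hβ hs
  have R2 : ∀ s ∈ I, R s ^ 2 * (B s ^ 2 + l s ^ 2) = 1 := fun s hs => O.R2 hβ hs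
  have Rp : ∀ s ∈ I, 0 < R s := fun s hs => O.Rpos hβ hs
  have h2β : ∀ s ∈ I, 2 * β = B s * (4 * J s + 2 * τ s) * η s - P s * l s := fun s hs => O.hβ hs
  have ldef : ∀ s, l s = 2 * (J s - τ s) := fun s => rfl
  have kdef : ∀ s, k s = 2 * (J s + τ s) := fun s => rfl
  have Bdef : ∀ s ∈ I, B s * η s = v s - τ s * w s := fun s hs => by
    have h0 := (O.η0 s hs).ne'
    show (v s - τ s * w s) / η s * η s = _
    field_simp
  -- the functions
  let f1 : ℝ → ℝ := fun s => B s * R s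
  let g1 : ℝ → ℝ := fun s => l s * R s
  have df1 : ∀ s ∈ I, HasDerivAt f1 (-(k s * g1 s)) s := fun s hs => by
    refine ((dB s hs).mul (dR s hs)).congr_deriv ?_
    simp only [g1]
    ring
  have dg1 : ∀ s ∈ I, HasDerivAt g1 (k s * f1 s) s := fun s hs => by
    refine ((dl s hs).mul (dR s hs)).congr_deriv ?_
    simp only [f1]
    ring
  let σ : ℝ → ℝ := fun s => (2 * J s + τ s) * η s / β
  let p' : ℝ → ℝ := fun s => P s / (2 * β)
  let z : ℝ → ℝ := fun s => σ s * g1 s + p' s * f1 s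
  have dσ : ∀ s ∈ I, HasDerivAt σ (1 + p' s * k s) s := fun s hs => by
    have h0 := (O.η0 s hs).ne'
    refine (((((O.dJ s hs).const_mul 2).add (O.dτ s hs)).mul (O.dη s hs)).div_const β).congr_deriv ?_
    have hW := O.hW s hs
    simp only [p', kdef, Pi.add_apply]
    field_simp
    linear_combination hW
  have dp' : ∀ s ∈ I, HasDerivAt p' (-(k s * σ s)) s := fun s hs => by
    refine ((O.dP s hs).div_const (2 * β)).congr_deriv ?_
    simp only [σ, kdef]
    field_simp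
    ring
  have dz : ∀ s ∈ I, HasDerivAt z (g1 s) s := fun s hs => by
    refine (((dσ s hs).mul (dg1 s hs)).add ((dp' s hs).mul (df1 s hs))).congr_deriv ?_
    ring
  let p0 : ℝ → ℝ := fun s => 4 * J s * g1 s
  let q0 : ℝ → ℝ := fun s => -(4 * J s * f1 s)
  let u0 : ℝ → ℝ := fun s => 8 * η s * g1 s + 4 * J s * (k s * f1 s)
  let v0 : ℝ → ℝ := fun s => -(8 * η s * f1 s) + 4 * J s * (k s * g1 s)
  let p1 : ℝ → ℝ := fun s => 4 * α * p0 s - 32 * β * R s
  let q1 : ℝ → ℝ := fun s => 4 * α * q0 s - 32 * β * z s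
  let u1 : ℝ → ℝ := fun s => 4 * α * u0 s - 32 * β * f1 s
  let v1' : ℝ → ℝ := fun s => 4 * α * v0 s - 32 * β * g1 s
  let p2 : ℝ → ℝ := fun s => -(32 * β) * p0 s + 4 * α * p1 s
  let q2 : ℝ → ℝ := fun s => -(32 * β) * q0 s + 4 * α * q1 s
  have fR : ∀ s ∈ I, f1 s / R s = B s := fun s hs => by
    have := (Rp s hs).ne'
    simp only [f1]
    field_simp
  have gR : ∀ s ∈ I, g1 s / R s = l s := fun s hs => by
    have := (Rp s hs).ne'
    simp only [g1]
    field_simp
  have Ri : ∀ s ∈ I, ∀ x : ℝ, x / R s ^ 2 = x * (B s ^ 2 + l s ^ 2) := fun s hs x => by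
    have h0 := (Rp s hs).ne'
    rw [div_eq_iff (pow_ne_zero 2 h0)]
    linear_combination (-x) * R2 s hs
  have dp0 : ∀ s ∈ I, HasDerivAt p0 (u0 s) s := fun s hs => by
    refine (((O.dJ s hs).const_mul 4).mul (dg1 s hs)).congr_deriv ?_
    simp only [u0]
    ring
  have dq0 : ∀ s ∈ I, HasDerivAt q0 (v0 s) s := fun s hs => by
    refine (((O.dJ s hs).const_mul 4).mul (df1 s hs)).neg.congr_deriv ?_
    simp only [v0]
    ring
  have dp1 : ∀ s ∈ I, HasDerivAt p1 (u1 s) s := fun s hs => by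
    refine (((dp0 s hs).const_mul (4 * α)).sub ((dR s hs).const_mul (32 * β))).congr_deriv ?_
    simp only [u1, f1]
  have dq1 : ∀ s ∈ I, HasDerivAt q1 (v1' s) s := fun s hs =>
    ((dq0 s hs).const_mul (4 * α)).sub ((dz s hs).const_mul (32 * β))
  have du0 : ∀ s ∈ I, HasDerivAt u0 (-p1 s - f1 s / R s * u0 s + p0 s / R s ^ 2) s := fun s hs => by
    have h0 := (O.η0 s hs).ne'
    refine ((((O.dη s hs).const_mul 8).mul (dg1 s hs)).add
      (((O.dJ s hs).const_mul 4).mul ((dk s hs).mul (df1 s hs)))).congr_deriv ?_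
    rw [fR s hs, Ri s hs]
    have h3 := O.h3 s hs
    have hv := O.hv s hs
    have hb := h2β s hs
    have hB1 := Bdef s hs
    simp only [p1, p0, u0, f1, g1, kdef, ldef, Pi.mul_apply] at hb ⊢
    have hBx : B s = (v s - τ s * w s) / η s := rfl
    rw [hBx] at hb ⊢
    field_simp at hb ⊢
    linear_combination R s * ((-8 * J s * (v s - τ s * w s)) * h3 +
      (32 * (J s - τ s) * η s ^ 2) * hv - (16 * η s ^ 2) * hb)
  have dv0 : ∀ s ∈ I, HasDerivAt v0 (-q1 s - f1 s / R s * v0 s) s := fun s hs => by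
    have h0 := (O.η0 s hs).ne'
    refine ((((O.dη s hs).const_mul 8).mul (df1 s hs)).neg.add
      (((O.dJ s hs).const_mul 4).mul ((dk s hs).mul (dg1 s hs)))).congr_deriv ?_
    rw [fR s hs]
    have h3 := O.h3 s hs
    have hv := O.hv s hs
    have hb := h2β s hs
    have hB1 := Bdef s hs
    simp only [q1, q0, v0, f1, g1, z, σ, p', kdef, ldef, Pi.mul_apply] at hb ⊢
    have hBx : B s = (v s - τ s * w s) / η s := rfl
    rw [hBx] at hb ⊢
    field_simp at hb ⊢
    linear_combination R s * ((-32 * J s * (J s - τ s)) * h3 - (32 * (v s - τ s * w s)) * hv)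
  have D : Data 1 (fun j => if j = 0 then -(32 * β) else 4 * α) I R z f1 g1 k (fun s => -(4 * J s))
      (fun n => if n = 0 then p0 else if n = 1 then p1 else p2)
      (fun n => if n = 0 then q0 else if n = 1 then q1 else q2)
      (fun n => if n = 0 then u0 else u1) (fun n => if n = 0 then v0 else v1') :=
    { opn := O.opn
      con := O.con
      pos := Rp
      df := dR
      dg := dz
      unit := fun s hs => by
        simp only [f1, g1]
        linear_combination R2 s hs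
      df1 := df1
      dg1 := dg1
      hh := fun s hs => by
        rw [gR s hs, kdef, ldef]
        ring
      p0 := fun s hs => by
        simp only [p0, if_true]
        ring
      q0 := fun s hs => by
        simp only [q0, if_true]
        ring
      dp := fun n hn s hs => by
        interval_cases n
        · exact dp0 s hs
        · exact dp1 s hs
      dq := fun n hn s hs => by
        interval_cases n
        · exact dq0 s hs
        · exact dq1 s hs
      dp1 := fun n hn s hs => by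
        interval_cases n
        · exact du0 s hs
        · refine (((du0 s hs).const_mul (4 * α)).sub ((df1 s hs).const_mul (32 * β))).congr_deriv ?_
          simp only [one_ne_zero, if_false, if_true, Nat.reduceAdd, OfNat.ofNat_ne_zero,
            OfNat.ofNat_ne_one]
          rw [fR s hs, Ri s hs, Ri s hs]
          simp only [p2, p1, u1, f1, g1, p0, kdef, ldef]
          ring
      dq1 := fun n hn s hs => by
        interval_cases n
        · exact dv0 s hs
        · refine (((dv0 s hs).const_mul (4 * α)).sub ((dg1 s hs).const_mul (32 * β))).congr_deriv ?_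
          simp only [one_ne_zero, if_false, if_true, Nat.reduceAdd, OfNat.ofNat_ne_zero,
            OfNat.ofNat_ne_one]
          rw [fR s hs]
          simp only [q2, q1, v1', f1, g1, q0, kdef, ldef]
          ring
      lastp := fun s hs => by
        rw [Fin.sum_univ_two]
        simp [p2]
      lastq := fun s hs => by
        rw [Fin.sum_univ_two]
        simp [q2] }
  have h1 := h_deriv D hs0
  have h2 := ((O.dJ s0 hs0).const_mul 4).neg
  have h3 := h1.unique h2
  have h4 := O.η0 s0 hs0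
  linarith

end

end Pool.Agent.Helper33.TT
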