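import Pool.Agent.Helper33.TT.Gen

/-!
# The case that the gradient of the mean curvature is principal: ring identities
-/

set_option autoImplicit false

namespace Pool.Agent.Helper33.TT

variable {A : Type*} [CommRing A] [Algebra ℚ A]
variable {D D' : Derivation ℚ A A} {α β J P v W c c' q q' j j' : A}

/-- The formulas for `E = j D'`, `Ē = j' D`. -/
structure Loc (D D' : Derivation ℚ A A) (α J P v W c c' q q' j j' w g s t m m' : A) : Prop where
  hw : q * q' * w = W
  h2 : D j - c * j = q * w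
  h2' : D' j' - c' * j' = q' * w
  hsd : s = q * q'
  htd : t = j * j'
  hmd : m = q * j' ^ 2
  hmd' : m' = q' * j ^ 2
  hg : g = P - v - 2 * J * w
  hmm : m * m' = s * t ^ 2
  e3 : j' * (D q - 2 * c * q) = q * g - 2 * j ^ 2
  e3' : j * (D' q' - 2 * c' * q') = q' * g - 2 * j' ^ 2
  Es : j * D' s = s * g - 2 * m + m'
  Es' : j' * D s = s * g - 2 * m' + m
  EJ : j * D' J = t
  EJ' : j' * D J = t
  EP : j * D' P = -(4 * J ^ 2 * t + 6 * J * m' + 2 * s * t)
  EP' : j' * D P = -(4 * J ^ 2 * t + 6 * J * m + 2 * s * t)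
  Et : j * D' t = t * v + m' * w
  Et' : j' * D t = t * v + m * w
  Ev : j * D' v = (6 * J ^ 2 + 2 * s - α) * t + 2 * J * (s * g - 2 * m + m') +
      (4 * J ^ 2 * t + 6 * J * m' + 2 * s * t)
  Ev' : j' * D v = (6 * J ^ 2 + 2 * s - α) * t + 2 * J * (s * g - 2 * m' + m) +
      (4 * J ^ 2 * t + 6 * J * m + 2 * s * t)
  Ew : s * (j * D' w) = j * D' W - w * (j * D' s)
  Ew' : s * (j' * D w) = j' * D W - w * (j' * D s)
  T2 : t * (j * D' W - w * (j * D' s)) = m' * (j' * D v) + (2 * J ^ 2 - 2 * s - w) * m' * t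
  T2' : t * (j' * D W - w * (j' * D s)) = m * (j * D' v) + (2 * J ^ 2 - 2 * s - w) * m * t

theorem Sys.loc (S : Sys D D' α β J P v W c c' q q' j j') (hs : IsUnit (q * q')) :
    ∃ w g s t m m', Loc D D' α J P v W c c' q q' j j' w g s t m m' := by
  obtain ⟨hq, hq'⟩ := IsUnit.mul_iff.mp hs
  -- w
  obtain ⟨w, hw⟩ : ∃ w, q * q' * w = W := by
    obtain ⟨u, hu⟩ := hs
    exact ⟨(u⁻¹ : Aˣ) * W, by rw [← hu, ← mul_assoc, Units.mul_inv, one_mul]⟩
  have h2 : D j - c * j = q * w := by
    have h : q' * ((D j - c * j) - q * w) = 0 := by linear_combination S.jW - hw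
    linear_combination unit_cancel hq' h
  have h2' : D' j' - c' * j' = q' * w := by
    have h : q * ((D' j' - c' * j') - q' * w) = 0 := by linear_combination S.jW' - hw
    linear_combination unit_cancel hq h
  obtain ⟨s, hsd⟩ : ∃ s, s = q * q' := ⟨_, rfl⟩
  obtain ⟨t, htd⟩ : ∃ t, t = j * j' := ⟨_, rfl⟩
  obtain ⟨m, hmd⟩ : ∃ m, m = q * j' ^ 2 := ⟨_, rfl⟩
  obtain ⟨m', hmd'⟩ : ∃ m, m = q' * j ^ 2 := ⟨_, rfl⟩
  obtain ⟨g, hg⟩ : ∃ g, g = P - v - 2 * J * w := ⟨_, rfl⟩
  have hmm : m * m' = s * t ^ 2 := by rw [hsd, htd, hmd, hmd']; ring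
  have e3 : j' * (D q - 2 * c * q) = q * g - 2 * j ^ 2 := by
    rw [hg]; linear_combination S.q3 - 2 * J * h2
  have e3' : j * (D' q' - 2 * c' * q') = q' * g - 2 * j' ^ 2 := by
    rw [hg]; linear_combination S.q3' - 2 * J * h2'
  -- the operators E = j D', Ē = j' D
  have Es : j * D' s = s * g - 2 * m + m' := by
    rw [hsd, hmd, hmd', Derivation.leibniz, smul_eq_mul, smul_eq_mul]
    linear_combination q * e3' + q' * j * S.cod
  have Es' : j' * D s = s * g - 2 * m' + m := by
    rw [hsd, hmd, hmd', Derivation.leibniz, smul_eq_mul, smul_eq_mul]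
    linear_combination q' * e3 + q * j' * S.cod'
  have EJ : j * D' J = t := by rw [S.DJ', htd]
  have EJ' : j' * D J = t := by rw [S.DJ, htd]; ring
  have EP : j * D' P = -(4 * J ^ 2 * t + 6 * J * m' + 2 * s * t) := by
    rw [S.DP', hsd, htd, hmd']; ring
  have EP' : j' * D P = -(4 * J ^ 2 * t + 6 * J * m + 2 * s * t) := by
    rw [S.DP, hsd, htd, hmd]; ring
  have Et : j * D' t = t * v + m' * w := by
    rw [htd, hmd', Derivation.leibniz, smul_eq_mul, smul_eq_mul]
    linear_combination j ^ 2 * h2' + j * j' * S.jv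
  have Et' : j' * D t = t * v + m * w := by
    rw [htd, hmd, Derivation.leibniz, smul_eq_mul, smul_eq_mul]
    linear_combination j' ^ 2 * h2 + j * j' * S.jv'
  have Ev : j * D' v = (6 * J ^ 2 + 2 * s - α) * t + 2 * J * (s * g - 2 * m + m') +
      (4 * J ^ 2 * t + 6 * J * m' + 2 * s * t) := by
    have h := congrArg D' S.hv
    rw [← hsd] at h
    simp only [map_add, map_sub, Derivation.leibniz, Derivation.leibniz_pow, smul_eq_mul,
      S.Dα'] at h
    have h1 : D' (2 : A) = 0 := by
      have := D'.map_natCast 2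
      simpa using this
    rw [h1] at h
    simp only [nsmul_eq_mul] at h
    push_cast at h
    linear_combination j * h + (6 * J ^ 2 + 2 * s - α) * EJ + 2 * J * Es - EP
  have Ev' : j' * D v = (6 * J ^ 2 + 2 * s - α) * t + 2 * J * (s * g - 2 * m' + m) +
      (4 * J ^ 2 * t + 6 * J * m + 2 * s * t) := by
    have h := congrArg D S.hv
    rw [← hsd] at h
    simp only [map_add, map_sub, Derivation.leibniz, Derivation.leibniz_pow, smul_eq_mul,
      S.Dα] at h
    have h1 : D (2 : A) = 0 := by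
      have := D.map_natCast 2
      simpa using this
    rw [h1] at h
    simp only [nsmul_eq_mul] at h
    push_cast at h
    linear_combination j' * h + (6 * J ^ 2 + 2 * s - α) * EJ' + 2 * J * Es' - EP'
  have EW : j * D' W = J * (j * D' P) + P * t - 3 * (j * D' t) - 2 * t * v - 2 * J * (j * D' v) := by
    have h := congrArg D' S.hW
    rw [← htd] at h
    simp only [map_add, map_sub, Derivation.leibniz, Derivation.leibniz_pow, smul_eq_mul,
      S.Dβ'] at h
    have h1 : D' (2 : A) = 0 := by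
      have := D'.map_natCast 2
      simpa using this
    have h3 : D' (3 : A) = 0 := by
      have := D'.map_natCast 3
      simpa using this
    rw [h1, h3] at h
    linear_combination j * h + (P - 2 * v) * EJ
  have EW' : j' * D W = J * (j' * D P) + P * t - 3 * (j' * D t) - 2 * t * v -
      2 * J * (j' * D v) := by
    have h := congrArg D S.hW
    rw [← htd] at h
    simp only [map_add, map_sub, Derivation.leibniz, Derivation.leibniz_pow, smul_eq_mul,
      S.Dβ] at h
    have h1 : D (2 : A) = 0 := by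
      have := D.map_natCast 2
      simpa using this
    have h3 : D (3 : A) = 0 := by
      have := D.map_natCast 3
      simpa using this
    rw [h1, h3] at h
    linear_combination j' * h + (P - 2 * v) * EJ'
  -- integrability of j
  have R2 : q * D' w = D v + (2 * J ^ 2 - 2 * s - w) * j := by
    have h := S.commj
    have a1 : D j = c * j + q * w := by linear_combination h2
    have a2 : D' j = v - c' * j := by linear_combination S.jv
    rw [a1, a2] at h
    simp only [map_add, map_sub, Derivation.leibniz, smul_eq_mul] at h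
    rw [a1, a2] at h
    rw [hsd]
    linear_combination h - j * S.gauss - w * S.cod
  have R2' : q' * D w = D' v + (2 * J ^ 2 - 2 * s - w) * j' := by
    have h := S.commj'
    have a1 : D' j' = c' * j' + q' * w := by linear_combination h2'
    have a2 : D j' = v - c * j' := by linear_combination S.jv'
    rw [a1, a2] at h
    simp only [map_add, map_sub, Derivation.leibniz, smul_eq_mul] at h
    rw [a1, a2] at h
    rw [hsd]
    linear_combination -h - j' * S.gauss - w * S.cod'
  have Ew : s * (j * D' w) = j * D' W - w * (j * D' s) := by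
    have h := congrArg D' hw
    rw [← hsd] at h
    simp only [Derivation.leibniz, smul_eq_mul] at h
    linear_combination j * h
  have Ew' : s * (j' * D w) = j' * D W - w * (j' * D s) := by
    have h := congrArg D hw
    rw [← hsd] at h
    simp only [Derivation.leibniz, smul_eq_mul] at h
    linear_combination j' * h
  have T2 : t * (j * D' W - w * (j * D' s)) = m' * (j' * D v) + (2 * J ^ 2 - 2 * s - w) * m' * t := by
    rw [← Ew]
    rw [htd, hmd', hsd]
    rw [hsd] at R2
    linear_combination (q' * j * (j * j')) * R2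
  have T2' : t * (j' * D W - w * (j' * D s)) = m * (j * D' v) + (2 * J ^ 2 - 2 * s - w) * m * t := by
    rw [← Ew']
    rw [htd, hmd, hsd]
    rw [hsd] at R2'
    linear_combination (q * j' * (j * j')) * R2'
  exact ⟨w, g, s, t, m, m', hw, h2, h2', hsd, htd, hmd, hmd', hg, hmm, e3, e3', Es, Es', EJ, EJ', EP,
    EP', Et, Et', Ev, Ev', Ew, Ew', T2, T2'⟩

/-- The identities along the gradient lines of `J`, if the gradient is principal. -/
structure Pr (Z : Derivation ℚ A A) (α β J P v τ η w : A) : Prop where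
  ZJ : Z J = 2 * η
  Zτ : η * Z τ = τ * (P - v - 2 * J * w) - η ^ 2
  Zη : Z η = v + τ * w
  ZP : Z P = -(4 * (J + τ) * (2 * J + τ) * η)
  Zw : τ * Z w = Z v + 2 * (2 * J ^ 2 - 2 * τ ^ 2 - w) * η
  hW : τ ^ 2 * w = β + J * P - 3 * η ^ 2 - 2 * J * v
  h3 : 3 * η ^ 2 = τ * (P + v - 2 * J * w - 2 * τ * w)
  hv : v = 2 * J ^ 3 + 2 * J * τ ^ 2 - α * J - P
  Zα : Z α = 0
  Zβ : Z β = 0

theorem prin (S : Sys D D' α β J P v W c c' q q' j j') (hs : IsUnit (q * q')) {η ηi : A}
    (hη : η ^ 2 = j * j') (hηi : η * ηi = 1) (hm : q * j' ^ 2 = q' * j ^ 2) :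
    ∃ τ w, τ * (j * j') = q * j' ^ 2 ∧ q * q' * w = W ∧
      Pr (ηi • (j • D' + j' • D)) α β J P v τ η w := by
  obtain ⟨w, g, s, t, m, m', L⟩ := S.loc hs
  obtain ⟨hw, h2, h2', hsd, htd, hmd, hmd', hg, hmm, e3, e3', Es, Es', EJ, EJ', EP, EP', Et, Et', Ev,
    Ev', Ew, Ew', T2, T2'⟩ := L
  have hηt : η ^ 2 = t := by rw [htd]; exact hη
  have hηu : IsUnit η := IsUnit.of_mul_eq_one ηi hηi
  have htu : IsUnit t := by rw [← hηt]; exact hηu.pow 2
  have hsu : IsUnit s := by rw [hsd]; exact hs
  have hmm' : m = m' := by rw [hmd, hmd', hm]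
  subst hmm'
  obtain ⟨τ, hτ⟩ : ∃ τ, τ = m * ηi ^ 2 := ⟨_, rfl⟩
  have hτt : τ * t = m := by
    rw [hτ, ← hηt]
    linear_combination (m * (η * ηi + 1)) * hηi
  have hτs : τ ^ 2 = s := by
    have h : t ^ 2 * (τ ^ 2 - s) = 0 := by
      linear_combination (τ * t + m) * hτt + hmm
    linear_combination unit_cancel (htu.pow 2) h
  have hτu : IsUnit τ := by
    have h : IsUnit (τ * τ) := by rw [← sq, hτs]; exact hsu
    exact (IsUnit.mul_iff.mp h).1
  -- differentiate m = m'
  have Em : j * D' m = t ^ 2 + 2 * t * s * w := by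
    rw [hmd, htd, hsd]
    simp only [Derivation.leibniz, Derivation.leibniz_pow, smul_eq_mul, nsmul_eq_mul]
    push_cast
    linear_combination (2 * q * j * j') * h2' + (j * j' ^ 2) * S.cod
  have Em' : j * D' m = m * g - 2 * t ^ 2 + 2 * m * v := by
    rw [hmd', htd]
    simp only [Derivation.leibniz, Derivation.leibniz_pow, smul_eq_mul, nsmul_eq_mul]
    push_cast
    linear_combination (j ^ 2) * e3' + (2 * q' * j ^ 2) * S.jv
  have S1 : 3 * η ^ 2 = τ * (P + v - 2 * J * w - 2 * τ * w) := by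
    have h : t * (3 * t + 2 * s * w - τ * (g + 2 * v)) = 0 := by
      linear_combination Em' - Em - (g + 2 * v) * hτt
    have h' := unit_cancel htu h
    rw [hηt]
    rw [hg, ← hτs] at h'
    linear_combination h'
  obtain ⟨Z, hZ⟩ : ∃ Z : Derivation ℚ A A, Z = ηi • (j • D' + j' • D) := ⟨_, rfl⟩
  have hZa : ∀ f, Z f = ηi * (j * D' f + j' * D f) := by
    intro f
    rw [hZ]
    simp
    ring
  have hZb : ∀ f, η * Z f = j * D' f + j' * D f := by
    intro f
    rw [hZa]
    linear_combination (j * D' f + j' * D f) * hηi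
  have ZJ : Z J = 2 * η := by
    rw [hZa, EJ, EJ', ← hηt]
    linear_combination (2 * η) * hηi
  have Zη : Z η = v + τ * w := by
    have h := congrArg Z hηt
    rw [Derivation.leibniz_pow] at h
    simp only [smul_eq_mul, nsmul_eq_mul] at h
    push_cast at h
    have h1 : η * Z t = 2 * t * v + 2 * m * w := by
      rw [hZb, Et, Et']
      ring
    have h2 : ((2 : ℕ) : A) * (η ^ 2 * (Z η - (v + τ * w))) = 0 := by
      push_cast
      linear_combination η * h + h1 - (2 * v) * hηt - (2 * w) * hτt - (2 * τ * w) * hηt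
    linear_combination unit_cancel (hηu.pow 2) (num_cancel (by norm_num) h2)
  have Zs : η * Z s = 2 * s * g - 2 * m := by
    rw [hZb, Es, Es']
    ring
  have Zτ : η * Z τ = τ * (P - v - 2 * J * w) - η ^ 2 := by
    have h := congrArg Z hτs
    rw [Derivation.leibniz_pow] at h
    simp only [smul_eq_mul, nsmul_eq_mul] at h
    push_cast at h
    have h2 : ((2 : ℕ) : A) * (τ * (η * Z τ - (τ * (P - v - 2 * J * w) - η ^ 2))) = 0 := by
      push_cast
      linear_combination η * h + Zs + (2 * s) * hg + (2 * (P - v - 2 * J * w)) * (-hτs) +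
        (2 * τ) * hηt + 2 * hτt
    linear_combination unit_cancel hτu (num_cancel (by norm_num) h2)
  have ZP : Z P = -(4 * (J + τ) * (2 * J + τ) * η) := by
    have h1 : η * Z P = -(8 * J ^ 2 * t + 12 * J * m + 4 * s * t) := by
      rw [hZb, EP, EP']
      ring
    have h2 : η * (Z P + 4 * (J + τ) * (2 * J + τ) * η) = 0 := by
      rw [← hτt, ← hτs, ← hηt] at h1
      linear_combination h1
    linear_combination unit_cancel hηu h2
  have Zw : τ * Z w = Z v + 2 * (2 * J ^ 2 - 2 * τ ^ 2 - w) * η := by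
    have h1 : t * s * (η * Z w) = m * (η * Z v) + 2 * (2 * J ^ 2 - 2 * s - w) * m * t := by
      rw [hZb, hZb]
      rw [← Ew] at T2
      rw [← Ew'] at T2'
      linear_combination T2 + T2'
    rw [← hτt, ← hτs, ← hηt] at h1
    have h2 : (η ^ 3 * τ) * (τ * Z w - (Z v + 2 * (2 * J ^ 2 - 2 * τ ^ 2 - w) * η)) = 0 := by
      linear_combination h1
    linear_combination unit_cancel ((hηu.pow 3).mul hτu) h2
  refine ⟨τ, w, by rw [← htd, ← hmd]; exact hτt, hw, ?_⟩
  rw [← hZ]
  exact
    { ZJ := ZJ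
      Zτ := Zτ
      Zη := Zη
      ZP := ZP
      Zw := Zw
      hW := by
        rw [hτs, hsd, hw, S.hW, hηt, htd]
      h3 := S1
      hv := by
        rw [hτs, hsd]
        exact S.hv
      Zα := by rw [hZa, S.Dα, S.Dα']; ring
      Zβ := by rw [hZa, S.Dβ, S.Dβ']; ring }

end Pool.Agent.Helper33.TT
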