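import Pool.Agent.Helper33.TT.Geo
import Pool.Agent.Helper33.TT.Prin
import Pool.Agent.Helper33.TT.Ode

/-!
# Integral curves of the gradient and the principal case
-/

set_option autoImplicit false

namespace Pool.Agent.Helper33.TT

variable {V : Set (ℝ × ℝ)}

/-- Evaluation. -/
noncomputable def ev (x : V) : Sm V →+* ℂ where
  toFun a := (a : V → ℂ) x
  map_one' := rfl
  map_zero' := rfl
  map_mul' _ _ := rfl
  map_add' _ _ := rfl

theorem fn_ev (a : Sm V) {x : ℝ × ℝ} (hx : x ∈ V) : fn a x = ev ⟨x, hx⟩ a := fn_mem a hx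

theorem ev_cj (a : Sm V) (x : V) : ev x (cj a) = (starRingEnd ℂ) (ev x a) := rfl

theorem ev_real {a : Sm V} (h : cj a = a) (x : V) : ev x a = ((ev x a).re : ℂ) := by
  have h1 : (starRingEnd ℂ) (ev x a) = ev x a := by rw [← ev_cj, h]
  exact (Complex.conj_eq_iff_re.mp h1).symm

theorem exists_curve (hV : IsOpen V) {x0 : ℝ × ℝ} (hx0 : x0 ∈ V) {z : ℝ × ℝ → ℝ × ℝ}
    (hz : ContDiffOn ℝ ((⊤ : ℕ∞) : WithTop ℕ∞) z V) :
    ∃ ε > (0 : ℝ), ∃ γ : ℝ → ℝ × ℝ, γ 0 = x0 ∧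
      ∀ t ∈ Set.Ioo (-ε) ε, γ t ∈ V ∧ HasDerivAt γ (z (γ t)) t := by
  have h1 : ContDiffAt ℝ 1 z x0 := by
    refine ((hz.contDiffAt (hV.mem_nhds hx0)).of_le ?_)
    exact WithTop.coe_le_coe.2 (le_top : (1 : ℕ∞) ≤ ⊤)
  obtain ⟨γ, h0, ε, hε, hγ⟩ :=
    h1.exists_forall_mem_closedBall_exists_eq_forall_mem_Ioo_hasDerivAt₀ 0
  rw [zero_sub, zero_add] at hγ
  have hc : ContinuousAt γ 0 := (hγ 0 ⟨by linarith, hε⟩).continuousAt
  have hn : γ ⁻¹' V ∈ nhds (0 : ℝ) := hc (by rw [h0]; exact hV.mem_nhds hx0)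
  obtain ⟨δ, hδ, hb⟩ := Metric.mem_nhds_iff.1 hn
  refine ⟨min ε δ, lt_min hε hδ, γ, h0, fun t ht => ⟨?_, ?_⟩⟩
  · apply hb
    rw [Metric.mem_ball, Real.dist_eq, sub_zero, abs_lt]
    exact ⟨by linarith [ht.1, min_le_right ε δ], by linarith [ht.2, min_le_right ε δ]⟩
  · exact hγ t ⟨by linarith [ht.1, min_le_left ε δ], by linarith [ht.2, min_le_left ε δ]⟩

/-- The vector field with components `z1`, `z2`. -/
noncomputable def vfd (z1 z2 : Sm V) (x : ℝ × ℝ) : ℝ × ℝ := ((fn z1 x).re, (fn z2 x).re)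

theorem vfd_smooth (z1 z2 : Sm V) : ContDiffOn ℝ ((⊤ : ℕ∞) : WithTop ℕ∞) (vfd z1 z2) V :=
  (Complex.reCLM.contDiff.comp_contDiffOn (fn_smooth z1)).prodMk
    (Complex.reCLM.contDiff.comp_contDiffOn (fn_smooth z2))

theorem deriv_along (hV : IsOpen V) {z1 z2 : Sm V} (h1 : cj z1 = z1) (h2 : cj z2 = z2)
    {γ : ℝ → ℝ × ℝ} {t : ℝ} (ht : γ t ∈ V) (hγ : HasDerivAt γ (vfd z1 z2 (γ t)) t) (g : Sm V) :
    HasDerivAt (fun s => (fn g (γ s)).re)
      (ev ⟨γ t, ht⟩ ((z1 • dv hV ((1 : ℝ), (0 : ℝ)) + z2 • dv hV ((0 : ℝ), (1 : ℝ)) :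
        Derivation ℚ (Sm V) (Sm V)) g)).re t := by
  have hd := (fn_diff hV g ht).hasFDerivAt
  have h3 := hd.comp_hasDerivAt t hγ
  have h4 := Complex.reCLM.hasFDerivAt.comp_hasDerivAt t h3
  have h5 : HasDerivAt (fun s => (fn g (γ s)).re) _ t := h4
  refine h5.congr_deriv ?_
  have e1 := ev_real h1 ⟨γ t, ht⟩
  have e2 := ev_real h2 ⟨γ t, ht⟩
  have e3 : vfd z1 z2 (γ t) = (ev ⟨γ t, ht⟩ z1).re • ((1 : ℝ), (0 : ℝ)) +
      (ev ⟨γ t, ht⟩ z2).re • ((0 : ℝ), (1 : ℝ)) := by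
    unfold vfd
    rw [fn_ev z1 ht, fn_ev z2 ht]
    simp
  rw [e3]
  have e4 : (ev ⟨γ t, ht⟩ ((z1 • dv hV ((1 : ℝ), (0 : ℝ)) + z2 • dv hV ((0 : ℝ), (1 : ℝ)) :
      Derivation ℚ (Sm V) (Sm V)) g)) = ev ⟨γ t, ht⟩ z1 * fderiv ℝ (fn g) (γ t) ((1 : ℝ), (0 : ℝ)) +
      ev ⟨γ t, ht⟩ z2 * fderiv ℝ (fn g) (γ t) ((0 : ℝ), (1 : ℝ)) := by
    simp only [Derivation.add_apply, Derivation.smul_apply, smul_eq_mul, map_add, map_mul]
    rfl
  rw [e4, e1, e2, map_add, map_smul, map_smul]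
  simp

theorem cj_cst (a : ℝ) : cj (cst (a : ℂ) : Sm V) = cst (a : ℂ) := by
  apply Sm.ext'
  intro x
  show (starRingEnd ℂ) (a : ℂ) = a
  exact Complex.conj_ofReal a

theorem ev_cst (x : V) (z : ℂ) : ev x (cst z) = z := rfl

theorem mod_smooth {j : Sm V} (h : ∀ x : V, ev x j ≠ 0) :
    CD (fun x => Real.sqrt ((fn j x).re ^ 2 + (fn j x).im ^ 2)) V := by
  have h1 : CD (fun x => (fn j x).re) V := Complex.reCLM.contDiff.comp_contDiffOn (fn_smooth j)
  have h2 : CD (fun x => (fn j x).im) V := Complex.imCLM.contDiff.comp_contDiffOn (fn_smooth j)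
  refine ((h1.pow 2).add (h2.pow 2)).sqrt fun x hx => ?_
  have h3 := h ⟨x, hx⟩
  rw [← fn_ev j hx] at h3
  have h4 : Complex.normSq (fn j x) ≠ 0 := fun h0 => h3 (Complex.normSq_eq_zero.1 h0)
  rw [Complex.normSq_apply] at h4
  intro h5
  apply h4
  linarith

theorem real_at {a : Sm V} (h : cj a = a) {y : ℝ × ℝ} (hy : y ∈ V) :
    ∃ r : ℝ, ev ⟨y, hy⟩ a = (r : ℂ) ∧ (fn a y).re = r := by
  refine ⟨(ev ⟨y, hy⟩ a).re, ev_real h _, ?_⟩
  rw [fn_ev a hy]

theorem prin_contra (hV : IsOpen V) {x0 : ℝ × ℝ} (hx0 : x0 ∈ V) {a1 a2 : Sm V}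
    {D D' : Derivation ℚ (Sm V) (Sm V)}
    (hD : D = a1 • dv hV ((1 : ℝ), (0 : ℝ)) + a2 • dv hV ((0 : ℝ), (1 : ℝ)))
    (hD' : D' = cj a1 • dv hV ((1 : ℝ), (0 : ℝ)) + cj a2 • dv hV ((0 : ℝ), (1 : ℝ)))
    {α β : ℝ} {J P v W c c' q j : Sm V}
    (S : Sys D D' (cst (α : ℂ)) (cst (β : ℂ)) J P v W c c' q (cj q) j (cj j))
    (rJ : cj J = J) (rP : cj P = P) (hβ : β ≠ 0) (hs : IsUnit (q * cj q)) (ht : IsUnit (j * cj j))
    (hm : q * cj j ^ 2 = cj q * j ^ 2) : False := by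
  have hj0 : ∀ x : V, ev x j ≠ 0 := fun x h0 => by
    apply ne_of_isUnit ht x
    show ev x j * ev x (cj j) = 0
    rw [h0, zero_mul]
  -- eta
  set η : Sm V := mr _ (mod_smooth hj0) with hηd
  have hη : η ^ 2 = j * cj j := by
    apply Sm.ext'
    intro x
    show ((Real.sqrt ((fn j x).re ^ 2 + (fn j x).im ^ 2) : ℝ) : ℂ) ^ 2 = ev x j * ev x (cj j)
    rw [← Complex.ofReal_pow, Real.sq_sqrt (by positivity), ev_cj, Complex.mul_conj,
      Complex.normSq_apply, fn_ev j x.2]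
    congr 1
    ring
  have rη : cj η = η := cj_mr _ _
  have hηx : ∀ x : V, 0 < (ev x η).re := fun x => by
    show 0 < (((Real.sqrt ((fn j x).re ^ 2 + (fn j x).im ^ 2) : ℝ) : ℂ)).re
    rw [Complex.ofReal_re]
    apply Real.sqrt_pos.2
    have h3 := hj0 x
    rw [← fn_ev j x.2] at h3
    have h4 : 0 < Complex.normSq (fn j x) := Complex.normSq_pos.2 h3
    rw [Complex.normSq_apply] at h4
    linarith
  have hηu : IsUnit η := by
    have h : IsUnit (η * η) := by rw [← sq, hη]; exact ht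
    exact (IsUnit.mul_iff.mp h).1
  obtain ⟨ηi, hηi⟩ : ∃ ηi, η * ηi = 1 := hηu.exists_right_inv
  have rηi : cj ηi = ηi := by
    have h1 : η * cj ηi = 1 := by
      have := congrArg cj hηi
      rwa [map_mul, map_one, rη] at this
    have h2 : η * (cj ηi - ηi) = 0 := by linear_combination h1 - hηi
    linear_combination unit_cancel hηu h2
  obtain ⟨τ, w, hτ, hw, R⟩ := prin S hs hη hηi hm
  -- reality
  have rv : cj v = v := by
    rw [S.hv]
    simp only [map_add, map_sub, map_mul, map_pow, map_ofNat, rJ, rP, cj_cj, cj_cst]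
    ring
  have rW : cj W = W := by
    rw [S.hW]
    simp only [map_add, map_sub, map_mul, map_pow, map_ofNat, rJ, rP, cj_cj, cj_cst, rv]
    ring
  have rτ : cj τ = τ := by
    have h1 : (j * cj j) * (cj τ - τ) = 0 := by
      have h2 := congrArg cj hτ
      simp only [map_mul, map_pow, cj_cj] at h2
      linear_combination h2 - hτ - hm
    linear_combination unit_cancel ht h1
  have rw' : cj w = w := by
    have h1 : (q * cj q) * (cj w - w) = 0 := by
      have h2 := congrArg cj hw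
      simp only [map_mul, cj_cj, rW] at h2
      linear_combination h2 - hw
    linear_combination unit_cancel hs h1
  -- the real vector field
  set z1 : Sm V := ηi * (j * cj a1 + cj j * a1) with hz1
  set z2 : Sm V := ηi * (j * cj a2 + cj j * a2) with hz2
  have rz1 : cj z1 = z1 := by
    rw [hz1]
    simp only [map_mul, map_add, cj_cj, rηi]
    ring
  have rz2 : cj z2 = z2 := by
    rw [hz2]
    simp only [map_mul, map_add, cj_cj, rηi]
    ring
  have hZ : ηi • (j • D' + cj j • D) =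
      z1 • dv hV ((1 : ℝ), (0 : ℝ)) + z2 • dv hV ((0 : ℝ), (1 : ℝ)) := by
    rw [hD, hD', hz1, hz2]
    ext g
    simp only [Derivation.add_apply, Derivation.smul_apply, smul_eq_mul]
    ring
  rw [hZ] at R
  set Z : Derivation ℚ (Sm V) (Sm V) :=
    z1 • dv hV ((1 : ℝ), (0 : ℝ)) + z2 • dv hV ((0 : ℝ), (1 : ℝ)) with hZd
  obtain ⟨ε, hε, γ, h0, hγ⟩ := exists_curve hV hx0 (vfd_smooth z1 z2)
  have hd : ∀ g : Sm V, ∀ s (hs : s ∈ Set.Ioo (-ε) ε),
      HasDerivAt (fun s => (fn g (γ s)).re) (fn (Z g) (γ s)).re s := fun g s hs => by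
    have h := deriv_along hV rz1 rz2 (hγ s hs).1 (hγ s hs).2 g
    rw [fn_ev (Z g) (hγ s hs).1]
    exact h
  have hO : OD (Set.Ioo (-ε) ε) α β (fun s => (fn J (γ s)).re) (fun s => (fn τ (γ s)).re)
      (fun s => (fn η (γ s)).re) (fun s => (fn P (γ s)).re) (fun s => (fn v (γ s)).re)
      (fun s => (fn w (γ s)).re) (fun s => (fn (Z v) (γ s)).re) (fun s => (fn (Z w) (γ s)).re) := by
    have hτu : IsUnit τ := by
      have h1 : IsUnit (τ * (j * cj j)) := by
        rw [hτ]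
        exact (IsUnit.mul_iff.mp hs).1.mul ((IsUnit.mul_iff.mp ht).2.pow 2)
      exact (IsUnit.mul_iff.mp h1).1
    refine
      { opn := isOpen_Ioo
        con := isPreconnected_Ioo
        η0 := fun s hs => ?_
        τ0 := fun s hs => ?_
        dJ := fun s hs => ?_
        dτ := fun s hs => ?_
        dη := fun s hs => ?_
        dP := fun s hs => ?_
        dv := fun s hs => hd v s hs
        dw := fun s hs => hd w s hs
        hw1 := fun s hs => ?_
        hW := fun s hs => ?_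
        h3 := fun s hs => ?_
        hv := fun s hs => ?_ }
    · have hx := (hγ s hs).1
      have := hηx ⟨γ s, hx⟩
      rwa [← fn_ev η hx] at this
    · have hx := (hγ s hs).1
      obtain ⟨r, h1, h2⟩ := real_at rτ hx
      rw [h2]
      intro h3
      apply ne_of_isUnit hτu ⟨γ s, hx⟩
      show ev ⟨γ s, hx⟩ τ = 0
      rw [h1, h3, Complex.ofReal_zero]
    · refine (hd J s hs).congr_deriv ?_
      have hx := (hγ s hs).1
      obtain ⟨r, h1, h2⟩ := real_at rη hx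
      rw [h2, fn_ev _ hx, R.ZJ, map_mul, map_ofNat, h1]
      simp
    · refine (hd τ s hs).congr_deriv ?_
      have hx := (hγ s hs).1
      obtain ⟨rη', h1, h2⟩ := real_at rη hx
      obtain ⟨rτ', h3, h4⟩ := real_at rτ hx
      obtain ⟨rP', h5, h6⟩ := real_at rP hx
      obtain ⟨rv', h7, h8⟩ := real_at rv hx
      obtain ⟨rJ', h9, h10⟩ := real_at rJ hx
      obtain ⟨rw'', h11, h12⟩ := real_at rw' hx
      rw [h2, h4, h6, h8, h10, h12, fn_ev _ hx]
      have h13 := congrArg (ev ⟨γ s, hx⟩) R.Zτ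
      simp only [map_mul, map_sub, map_pow, map_ofNat, h1, h3, h5, h7, h9, h11] at h13
      have h14 := congrArg Complex.re h13
      have h15 : rη' ≠ 0 := by
        have := hηx ⟨γ s, hx⟩
        rw [h1, Complex.ofReal_re] at this
        exact this.ne'
      rw [Complex.re_ofReal_mul] at h14
      have h16 : ((rτ' : ℂ) * ((rP' : ℂ) - rv' - 2 * rJ' * rw'') - (rη' : ℂ) ^ 2) =
        ((rτ' * (rP' - rv' - 2 * rJ' * rw'') - rη' ^ 2 : ℝ) : ℂ) := by push_cast; ring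
      rw [h16, Complex.ofReal_re] at h14
      rw [eq_div_iff h15]
      linarith
    · refine (hd η s hs).congr_deriv ?_
      have hx := (hγ s hs).1
      obtain ⟨rτ', h3, h4⟩ := real_at rτ hx
      obtain ⟨rv', h7, h8⟩ := real_at rv hx
      obtain ⟨rw'', h11, h12⟩ := real_at rw' hx
      rw [h4, h8, h12, fn_ev _ hx, R.Zη, map_add, map_mul, h3, h7, h11]
      simp
    · refine (hd P s hs).congr_deriv ?_
      have hx := (hγ s hs).1
      obtain ⟨rη', h1, h2⟩ := real_at rη hx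
      obtain ⟨rτ', h3, h4⟩ := real_at rτ hx
      obtain ⟨rJ', h9, h10⟩ := real_at rJ hx
      rw [h2, h4, h10, fn_ev _ hx, R.ZP]
      simp only [map_neg, map_mul, map_add, map_ofNat, h1, h3, h9]
      have h16 : -(4 * ((rJ' : ℂ) + rτ') * (2 * rJ' + rτ') * rη') =
        ((-(4 * (rJ' + rτ') * (2 * rJ' + rτ') * rη') : ℝ) : ℂ) := by push_cast; ring
      rw [h16, Complex.ofReal_re]
    · have hx := (hγ s hs).1
      obtain ⟨rη', h1, h2⟩ := real_at rη hx
      obtain ⟨rτ', h3, h4⟩ := real_at rτ hx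
      obtain ⟨rJ', h9, h10⟩ := real_at rJ hx
      obtain ⟨rw'', h11, h12⟩ := real_at rw' hx
      rw [h2, h4, h10, h12, fn_ev _ hx, fn_ev _ hx]
      have h13 := congrArg (ev ⟨γ s, hx⟩) R.Zw
      simp only [map_mul, map_add, map_sub, map_pow, map_ofNat, h1, h3, h9, h11] at h13
      have h14 := congrArg Complex.re h13
      have h16 : (2 * (2 * (rJ' : ℂ) ^ 2 - 2 * rτ' ^ 2 - rw'') * rη') =
        ((2 * (2 * rJ' ^ 2 - 2 * rτ' ^ 2 - rw'') * rη' : ℝ) : ℂ) := by push_cast; ring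
      rw [Complex.re_ofReal_mul, Complex.add_re, h16, Complex.ofReal_re] at h14
      exact h14
    · have hx := (hγ s hs).1
      obtain ⟨rη', h1, h2⟩ := real_at rη hx
      obtain ⟨rτ', h3, h4⟩ := real_at rτ hx
      obtain ⟨rP', h5, h6⟩ := real_at rP hx
      obtain ⟨rv', h7, h8⟩ := real_at rv hx
      obtain ⟨rJ', h9, h10⟩ := real_at rJ hx
      obtain ⟨rw'', h11, h12⟩ := real_at rw' hx
      rw [h2, h4, h6, h8, h10, h12]
      have h13 := congrArg (ev ⟨γ s, hx⟩) R.hW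
      simp only [map_mul, map_add, map_sub, map_pow, map_ofNat, h1, h3, h5, h7, h9, h11, ev_cst] at h13
      exact_mod_cast h13
    · have hx := (hγ s hs).1
      obtain ⟨rη', h1, h2⟩ := real_at rη hx
      obtain ⟨rτ', h3, h4⟩ := real_at rτ hx
      obtain ⟨rP', h5, h6⟩ := real_at rP hx
      obtain ⟨rv', h7, h8⟩ := real_at rv hx
      obtain ⟨rJ', h9, h10⟩ := real_at rJ hx
      obtain ⟨rw'', h11, h12⟩ := real_at rw' hx
      rw [h2, h4, h6, h8, h10, h12]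
      have h13 := congrArg (ev ⟨γ s, hx⟩) R.h3
      simp only [map_mul, map_add, map_sub, map_pow, map_ofNat, h1, h3, h5, h7, h9, h11] at h13
      exact_mod_cast h13
    · have hx := (hγ s hs).1
      obtain ⟨rτ', h3, h4⟩ := real_at rτ hx
      obtain ⟨rP', h5, h6⟩ := real_at rP hx
      obtain ⟨rv', h7, h8⟩ := real_at rv hx
      obtain ⟨rJ', h9, h10⟩ := real_at rJ hx
      rw [h4, h6, h8, h10]
      have h13 := congrArg (ev ⟨γ s, hx⟩) R.hv
      simp only [map_mul, map_add, map_sub, map_pow, map_ofNat, h3, h5, h7, h9, ev_cst] at h13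
      exact_mod_cast h13
  exact ode_contra hO hβ (s0 := 0) ⟨by linarith, hε⟩

end Pool.Agent.Helper33.TT
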