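import Pool.Agent.Helper33.TT.Gen

/-!
# Frames

`Fr`: a complex null frame `D x`, `D' x`, `N` of a surface. `sys_of_frame`: the equation `Δ² x + a Δ x + b (x - x0) = 0` gives `Sys`.
-/

set_option autoImplicit false

namespace Pool.Agent.Helper33.TT

variable {A : Type*} [CommRing A] [Algebra ℚ A]

/-- Dot product. -/
def dp (u v : Fin 3 → A) : A := u 0 * v 0 + u 1 * v 1 + u 2 * v 2

/-- Componentwise derivative. -/
def dD (D : Derivation ℚ A A) (u : Fin 3 → A) : Fin 3 → A := fun i => D (u i)

omit [Algebra ℚ A] in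
theorem dp_comm (u v : Fin 3 → A) : dp u v = dp v u := by unfold dp; ring

omit [Algebra ℚ A] in
theorem dp_add (u v w : Fin 3 → A) : dp (u + v) w = dp u w + dp v w := by
  simp only [dp, Pi.add_apply]; ring

omit [Algebra ℚ A] in
theorem dp_smul (a : A) (u v : Fin 3 → A) : dp (a • u) v = a * dp u v := by
  simp only [dp, Pi.smul_apply, smul_eq_mul]; ring

theorem D_dp (D : Derivation ℚ A A) (u v : Fin 3 → A) :
    D (dp u v) = dp (dD D u) v + dp u (dD D v) := by
  simp only [dp, dD, map_add, Derivation.leibniz, smul_eq_mul]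
  ring

theorem dD_smul (D : Derivation ℚ A A) (a : A) (u : Fin 3 → A) :
    dD D (a • u) = D a • u + a • dD D u := by
  funext i
  simp only [dD, Pi.smul_apply, Pi.add_apply, Derivation.leibniz, smul_eq_mul]
  ring

theorem dD_add (D : Derivation ℚ A A) (u v : Fin 3 → A) : dD D (u + v) = dD D u + dD D v := by
  funext i
  simp [dD]

/-- A complex null frame. -/
structure Fr (D D' : Derivation ℚ A A) (x N : Fin 3 → A) (c c' : A) : Prop where
  comm : ∀ f, D' (D f) - D (D' f) = -c' * D f + c * D' f
  xx : dp (dD D x) (dD D x) = 0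
  xx' : dp (dD D' x) (dD D' x) = 0
  x1 : 2 * dp (dD D x) (dD D' x) = 1
  NN : dp N N = 1
  xN : dp (dD D x) N = 0
  xN' : dp (dD D' x) N = 0

variable {D D' : Derivation ℚ A A} {x N : Fin 3 → A} {c c' : A}

theorem two_cancel {a b : A} (h : 2 * a = 2 * b) : a = b := by
  have h1 : ((2 : ℕ) : A) * (a - b) = 0 := by push_cast; linear_combination h
  linear_combination num_cancel (by norm_num) h1

/-- Expansion of a vector in the frame. -/
theorem Fr.exp (F : Fr D D' x N c c') (v : Fin 3 → A) :
    v = (2 * dp v (dD D' x)) • dD D x + (2 * dp v (dD D x)) • dD D' x + dp v N • N := by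
  set X1 := dD D x with hX1
  set X2 := dD D' x with hX2
  let P : Matrix (Fin 3) (Fin 3) A := fun i k => ![2 * X2 k, 2 * X1 k, N k] i
  let Q : Matrix (Fin 3) (Fin 3) A := fun k i => ![X1 k, X2 k, N k] i
  have h11 := F.xx
  have h22 := F.xx'
  have h12 := F.x1
  have hNN := F.NN
  have h1N := F.xN
  have h2N := F.xN'
  rw [← hX1, ← hX2] at *
  simp only [dp] at h11 h22 h12 hNN h1N h2N
  have hPQ : P * Q = 1 := by
    ext i k
    rw [Matrix.mul_apply, Fin.sum_univ_three]
    fin_cases i <;> fin_cases k <;> simp [P, Q]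
    · linear_combination h12
    · linear_combination 2 * h22
    · linear_combination 2 * h2N
    · linear_combination 2 * h11
    · linear_combination h12
    · linear_combination 2 * h1N
    · linear_combination h1N
    · linear_combination h2N
    · linear_combination hNN
  have hQP : Q * P = 1 := mul_eq_one_comm.mp hPQ
  funext k
  have h := congrArg (fun M : Matrix (Fin 3) (Fin 3) A => M.mulVec v k) hQP
  simp only [Matrix.one_mulVec] at h
  rw [← h]
  have hq : ∀ i, (Q * P) k i = Q k 0 * P 0 i + Q k 1 * P 1 i + Q k 2 * P 2 i := fun i => by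
    rw [Matrix.mul_apply, Fin.sum_univ_three]
  simp only [Matrix.mulVec, dotProduct, Fin.sum_univ_three, hq, dp, Pi.add_apply,
    Pi.smul_apply, smul_eq_mul]
  simp [P, Q]
  ring

/-- Dot products in the frame. -/
theorem Fr.d1 (F : Fr D D' x N c c') :
    dp (dD D (dD D x)) (dD D x) = 0 := by
  have h := congrArg D F.xx
  rw [D_dp, map_zero, dp_comm (dD D x)] at h
  apply two_cancel
  linear_combination h

theorem Fr.d1' (F : Fr D D' x N c c') :
    dp (dD D' (dD D' x)) (dD D' x) = 0 := by
  have h := congrArg D' F.xx'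
  rw [D_dp, map_zero, dp_comm (dD D' x)] at h
  apply two_cancel
  linear_combination h

theorem Fr.d2 (F : Fr D D' x N c c') :
    dp (dD D' (dD D x)) (dD D x) = 0 := by
  have h := congrArg D' F.xx
  rw [D_dp, map_zero, dp_comm (dD D x)] at h
  apply two_cancel
  linear_combination h

theorem Fr.d2' (F : Fr D D' x N c c') :
    dp (dD D (dD D' x)) (dD D' x) = 0 := by
  have h := congrArg D F.xx'
  rw [D_dp, map_zero, dp_comm (dD D' x)] at h
  apply two_cancel
  linear_combination h

theorem Fr.cx (F : Fr D D' x N c c') :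
    dD D' (dD D x) - dD D (dD D' x) = -c' • dD D x + c • dD D' x := by
  funext i
  have h := F.comm (x i)
  simpa [dD] using h

/-- `2 J`, the mean curvature. -/
def mJ (D D' : Derivation ℚ A A) (x N : Fin 3 → A) : A := dp (dD D' (dD D x)) N

theorem Fr.J' (F : Fr D D' x N c c') : dp (dD D (dD D' x)) N = mJ D D' x N := by
  have h := congrArg (fun v => dp v N) F.cx
  have e : ∀ u v w : Fin 3 → A, dp (u - v) w = dp u w - dp v w := fun u v w => by
    simp only [dp, Pi.sub_apply]; ring
  simp only [e, dp_add, dp_smul, F.xN, F.xN'] at h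
  unfold mJ
  linear_combination -h

theorem Fr.c1 (F : Fr D D' x N c c') : 2 * dp (dD D (dD D' x)) (dD D x) = -c := by
  have h := congrArg (fun v => dp v (dD D x)) F.cx
  have e : ∀ u v w : Fin 3 → A, dp (u - v) w = dp u w - dp v w := fun u v w => by
    simp only [dp, Pi.sub_apply]; ring
  simp only [e, dp_add, dp_smul, F.xx, F.d2, dp_comm (dD D' x) (dD D x)] at h
  linear_combination -2 * h - c * F.x1

theorem Fr.c2 (F : Fr D D' x N c c') : 2 * dp (dD D (dD D x)) (dD D' x) = c := by
  have h := congrArg D F.x1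
  have h2 : D (2 : A) = 0 := by simpa using D.map_natCast 2
  rw [Derivation.leibniz, smul_eq_mul, smul_eq_mul, D_dp, h2, Derivation.map_one_eq_zero,
    dp_comm (dD D x) (dD D (dD D' x))] at h
  linear_combination h - F.c1

theorem Fr.c1' (F : Fr D D' x N c c') : 2 * dp (dD D' (dD D x)) (dD D' x) = -c' := by
  have h := congrArg (fun v => dp v (dD D' x)) F.cx
  have e : ∀ u v w : Fin 3 → A, dp (u - v) w = dp u w - dp v w := fun u v w => by
    simp only [dp, Pi.sub_apply]; ring
  simp only [e, dp_add, dp_smul, F.xx', F.d2'] at h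
  linear_combination 2 * h - c' * F.x1

theorem Fr.c2' (F : Fr D D' x N c c') : 2 * dp (dD D' (dD D' x)) (dD D x) = c' := by
  have h := congrArg D' F.x1
  have h2 : D' (2 : A) = 0 := by simpa using D'.map_natCast 2
  rw [Derivation.leibniz, smul_eq_mul, smul_eq_mul, D_dp, h2, Derivation.map_one_eq_zero,
    dp_comm (dD D x) (dD D' (dD D' x))] at h
  linear_combination h - F.c1'

/-- Derivatives of the frame. -/
theorem Fr.e11 (F : Fr D D' x N c c') :
    dD D (dD D x) = c • dD D x + dp (dD D (dD D x)) N • N := by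
  have h := F.exp (dD D (dD D x))
  rw [F.c2, F.d1, mul_zero, zero_smul, add_zero] at h
  exact h

theorem Fr.e22 (F : Fr D D' x N c c') :
    dD D' (dD D' x) = c' • dD D' x + dp (dD D' (dD D' x)) N • N := by
  have h := F.exp (dD D' (dD D' x))
  rw [F.c2', F.d1', mul_zero, zero_smul, zero_add] at h
  exact h

theorem Fr.e21 (F : Fr D D' x N c c') :
    dD D' (dD D x) = -c' • dD D x + mJ D D' x N • N := by
  have h := F.exp (dD D' (dD D x))
  rw [F.c1', F.d2, mul_zero, zero_smul, add_zero] at h
  exact h

theorem Fr.e12 (F : Fr D D' x N c c') :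
    dD D (dD D' x) = -c • dD D' x + mJ D D' x N • N := by
  have h := F.exp (dD D (dD D' x))
  rw [F.c1, F.d2', mul_zero, zero_smul, zero_add, F.J'] at h
  exact h

theorem Fr.eN (F : Fr D D' x N c c') :
    dD D N = (-2 * mJ D D' x N) • dD D x + (-2 * dp (dD D (dD D x)) N) • dD D' x := by
  have h := F.exp (dD D N)
  have h1 := congrArg D F.NN
  rw [D_dp, Derivation.map_one_eq_zero, dp_comm N] at h1
  have h1' : dp (dD D N) N = 0 := two_cancel (by linear_combination h1)
  have h2 := congrArg D F.xN'
  rw [D_dp, map_zero, F.J', dp_comm (dD D' x)] at h2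
  have h3 := congrArg D F.xN
  rw [D_dp, map_zero, dp_comm (dD D x)] at h3
  have h2' : 2 * dp (dD D N) (dD D' x) = -2 * mJ D D' x N := by linear_combination 2 * h2
  have h3' : 2 * dp (dD D N) (dD D x) = -2 * dp (dD D (dD D x)) N := by linear_combination 2 * h3
  rw [h1', h2', h3', zero_smul, add_zero] at h
  exact h

theorem Fr.eN' (F : Fr D D' x N c c') :
    dD D' N = (-2 * dp (dD D' (dD D' x)) N) • dD D x + (-2 * mJ D D' x N) • dD D' x := by
  have h := F.exp (dD D' N)
  have h1 := congrArg D' F.NN
  rw [D_dp, Derivation.map_one_eq_zero, dp_comm N] at h1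
  have h1' : dp (dD D' N) N = 0 := two_cancel (by linear_combination h1)
  have h2 := congrArg D' F.xN'
  rw [D_dp, map_zero, dp_comm (dD D' x)] at h2
  have h3 := congrArg D' F.xN
  rw [D_dp, map_zero, dp_comm (dD D x)] at h3
  have h2' : 2 * dp (dD D' N) (dD D' x) = -2 * dp (dD D' (dD D' x)) N := by
    linear_combination 2 * h2
  have h3' : 2 * dp (dD D' N) (dD D x) = -2 * mJ D D' x N := by
    unfold mJ
    linear_combination 2 * h3
  rw [h1', h2', h3', zero_smul, add_zero] at h
  exact h

end Pool.Agent.Helper33.TT
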