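import Mathlib

/-!
# Surfaces with `Δ² x + a Δ x + b (x - c) = 0`: the generic case

`Sys` is the system of structure equations in a complex null frame: `D`, `D'` the complex derivatives, `2 J` the mean curvature,
`q` the Hopf function, `j = D J`. `generic`: there is no solution for which `J`, `q q'`, `j j'` and `q j'² - q' j²` are units
(`q j'² - q' j²` vanishes if and only if the gradient of the mean curvature is a principal direction).
-/

set_option autoImplicit false

namespace Pool.Agent.Helper33.TT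

variable {A : Type*} [CommRing A] [Algebra ℚ A]

/-- The structure equations of a surface with `Δ² x + a Δ x + b (x - c) = 0`. -/
structure Sys (D D' : Derivation ℚ A A) (α β J P v W c c' q q' j j' : A) : Prop where
  Dα : D α = 0
  Dα' : D' α = 0
  Dβ : D β = 0
  Dβ' : D' β = 0
  DJ : D J = j
  DJ' : D' J = j'
  commj : D' (D j) - D (D' j) = -c' * D j + c * D' j
  commj' : D' (D j') - D (D' j') = -c' * D j' + c * D' j'
  gauss : D' c + D c' + 2 * c * c' = 2 * (q * q') - 2 * J ^ 2
  cod : D' q + 2 * c' * q = j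
  cod' : D q' + 2 * c * q' = j'
  hv : v = 2 * J ^ 3 + 2 * J * (q * q') - α * J - P
  jv : D' j + c' * j = v
  jv' : D j' + c * j' = v
  hW : W = β + J * P - 3 * (j * j') - 2 * J * v
  jW : q' * (D j - c * j) = W
  jW' : q * (D' j' - c' * j') = W
  q3 : j' * (D q - 2 * c * q) = q * (P - v) - 2 * j ^ 2 - 2 * J * (D j - c * j)
  q3' : j * (D' q' - 2 * c' * q') = q' * (P - v) - 2 * j' ^ 2 - 2 * J * (D' j' - c' * j')
  DP : D P = -(4 * J ^ 2 * j + 6 * J * q * j' + 2 * (q * q') * j)
  DP' : D' P = -(4 * J ^ 2 * j' + 6 * J * q' * j + 2 * (q * q') * j')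

theorem num_cancel {n : ℕ} (hn : n ≠ 0) {x : A} (h : (n : A) * x = 0) : x = 0 := by
  have h1 : ((n : ℚ)⁻¹ : ℚ) • ((n : A) * x) = x := by
    rw [← nsmul_eq_mul, ← Nat.cast_smul_eq_nsmul ℚ, smul_smul, inv_mul_cancel₀ (by exact_mod_cast hn),
      one_smul]
  rw [← h1, h, smul_zero]

omit [Algebra ℚ A] in
theorem unit_cancel {u x : A} (hu : IsUnit u) (h : u * x = 0) : x = 0 := by
  rwa [hu.mul_right_eq_zero] at h

variable {D D' : Derivation ℚ A A} {α β J P v W c c' q q' j j' : A}

theorem generic (S : Sys D D' α β J P v W c c' q q' j j') (hs : IsUnit (q * q'))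
    (ht : IsUnit (j * j')) (hJ : IsUnit J) (hδ : IsUnit (q * j' ^ 2 - q' * j ^ 2)) :
    (1 : A) = 0 := by
  obtain ⟨hq, hq'⟩ := IsUnit.mul_iff.mp hs
  obtain ⟨hj, hj'⟩ := IsUnit.mul_iff.mp ht
  -- w
  obtain ⟨w, hw⟩ : ∃ w, q * q' * w = W := by
    obtain ⟨u, hu⟩ := hs
    exact ⟨(u⁻¹ : Aˣ) * W, by rw [← hu, ← mul_assoc, Units.mul_inv, one_mul]⟩
  have h2 : D j - c * j = q * w := by
    have h : q' * ((D j - c * j) - q * w) = 0 := by linear_combination S.jW - hw
    linear_combination unit_cancel hq' h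
  have h2' : D' j' - c' * j' = q' * w := by
    have h : q * ((D' j' - c' * j') - q' * w) = 0 := by linear_combination S.jW' - hw
    linear_combination unit_cancel hq h
  obtain ⟨s, hsd⟩ : ∃ s, s = q * q' := ⟨_, rfl⟩
  obtain ⟨t, htd⟩ : ∃ t, t = j * j' := ⟨_, rfl⟩
  obtain ⟨m, hmd⟩ : ∃ m, m = q * j' ^ 2 := ⟨_, rfl⟩
  obtain ⟨m', hmd'⟩ : ∃ m, m = q' * j ^ 2 := ⟨_, rfl⟩
  obtain ⟨g, hg⟩ : ∃ g, g = P - v - 2 * J * w := ⟨_, rfl⟩
  have hmm : m * m' = s * t ^ 2 := by rw [hsd, htd, hmd, hmd']; ring
  have e3 : j' * (D q - 2 * c * q) = q * g - 2 * j ^ 2 := by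
    rw [hg]; linear_combination S.q3 - 2 * J * h2
  have e3' : j * (D' q' - 2 * c' * q') = q' * g - 2 * j' ^ 2 := by
    rw [hg]; linear_combination S.q3' - 2 * J * h2'
  -- the operators E = j D', Ē = j' D
  have Es : j * D' s = s * g - 2 * m + m' := by
    rw [hsd, hmd, hmd', Derivation.leibniz, smul_eq_mul, smul_eq_mul]
    linear_combination q * e3' + q' * j * S.cod
  have Es' : j' * D s = s * g - 2 * m' + m := by
    rw [hsd, hmd, hmd', Derivation.leibniz, smul_eq_mul, smul_eq_mul]
    linear_combination q' * e3 + q * j' * S.cod'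
  have EJ : j * D' J = t := by rw [S.DJ', htd]
  have EJ' : j' * D J = t := by rw [S.DJ, htd]; ring
  have EP : j * D' P = -(4 * J ^ 2 * t + 6 * J * m' + 2 * s * t) := by
    rw [S.DP', hsd, htd, hmd']; ring
  have EP' : j' * D P = -(4 * J ^ 2 * t + 6 * J * m + 2 * s * t) := by
    rw [S.DP, hsd, htd, hmd]; ring
  have Et : j * D' t = t * v + m' * w := by
    rw [htd, hmd', Derivation.leibniz, smul_eq_mul, smul_eq_mul]
    linear_combination j ^ 2 * h2' + j * j' * S.jv
  have Et' : j' * D t = t * v + m * w := by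
    rw [htd, hmd, Derivation.leibniz, smul_eq_mul, smul_eq_mul]
    linear_combination j' ^ 2 * h2 + j * j' * S.jv'
  have Ev : j * D' v = (6 * J ^ 2 + 2 * s - α) * t + 2 * J * (s * g - 2 * m + m') +
      (4 * J ^ 2 * t + 6 * J * m' + 2 * s * t) := by
    have h := congrArg D' S.hv
    rw [← hsd] at h
    simp only [map_add, map_sub, Derivation.leibniz, Derivation.leibniz_pow, smul_eq_mul,
      S.Dα'] at h
    have h1 : D' (2 : A) = 0 := by
      have := D'.map_natCast 2
      simpa using this
    rw [h1] at h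
    simp only [nsmul_eq_mul] at h
    push_cast at h
    linear_combination j * h + (6 * J ^ 2 + 2 * s - α) * EJ + 2 * J * Es - EP
  have Ev' : j' * D v = (6 * J ^ 2 + 2 * s - α) * t + 2 * J * (s * g - 2 * m' + m) +
      (4 * J ^ 2 * t + 6 * J * m + 2 * s * t) := by
    have h := congrArg D S.hv
    rw [← hsd] at h
    simp only [map_add, map_sub, Derivation.leibniz, Derivation.leibniz_pow, smul_eq_mul,
      S.Dα] at h
    have h1 : D (2 : A) = 0 := by
      have := D.map_natCast 2
      simpa using this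
    rw [h1] at h
    simp only [nsmul_eq_mul] at h
    push_cast at h
    linear_combination j' * h + (6 * J ^ 2 + 2 * s - α) * EJ' + 2 * J * Es' - EP'
  have EW : j * D' W = J * (j * D' P) + P * t - 3 * (j * D' t) - 2 * t * v - 2 * J * (j * D' v) := by
    have h := congrArg D' S.hW
    rw [← htd] at h
    simp only [map_add, map_sub, Derivation.leibniz, Derivation.leibniz_pow, smul_eq_mul,
      S.Dβ'] at h
    have h1 : D' (2 : A) = 0 := by
      have := D'.map_natCast 2
      simpa using this
    have h3 : D' (3 : A) = 0 := by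
      have := D'.map_natCast 3
      simpa using this
    rw [h1, h3] at h
    linear_combination j * h + (P - 2 * v) * EJ
  have EW' : j' * D W = J * (j' * D P) + P * t - 3 * (j' * D t) - 2 * t * v -
      2 * J * (j' * D v) := by
    have h := congrArg D S.hW
    rw [← htd] at h
    simp only [map_add, map_sub, Derivation.leibniz, Derivation.leibniz_pow, smul_eq_mul,
      S.Dβ] at h
    have h1 : D (2 : A) = 0 := by
      have := D.map_natCast 2
      simpa using this
    have h3 : D (3 : A) = 0 := by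
      have := D.map_natCast 3
      simpa using this
    rw [h1, h3] at h
    linear_combination j' * h + (P - 2 * v) * EJ'
  -- integrability of j
  have R2 : q * D' w = D v + (2 * J ^ 2 - 2 * s - w) * j := by
    have h := S.commj
    have a1 : D j = c * j + q * w := by linear_combination h2
    have a2 : D' j = v - c' * j := by linear_combination S.jv
    rw [a1, a2] at h
    simp only [map_add, map_sub, Derivation.leibniz, smul_eq_mul] at h
    rw [a1, a2] at h
    rw [hsd]
    linear_combination h - j * S.gauss - w * S.cod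
  have R2' : q' * D w = D' v + (2 * J ^ 2 - 2 * s - w) * j' := by
    have h := S.commj'
    have a1 : D' j' = c' * j' + q' * w := by linear_combination h2'
    have a2 : D j' = v - c * j' := by linear_combination S.jv'
    rw [a1, a2] at h
    simp only [map_add, map_sub, Derivation.leibniz, smul_eq_mul] at h
    rw [a1, a2] at h
    rw [hsd]
    linear_combination -h - j' * S.gauss - w * S.cod'
  have Ew : s * (j * D' w) = j * D' W - w * (j * D' s) := by
    have h := congrArg D' hw
    rw [← hsd] at h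
    simp only [Derivation.leibniz, smul_eq_mul] at h
    linear_combination j * h
  have Ew' : s * (j' * D w) = j' * D W - w * (j' * D s) := by
    have h := congrArg D hw
    rw [← hsd] at h
    simp only [Derivation.leibniz, smul_eq_mul] at h
    linear_combination j' * h
  have T2 : t * (j * D' W - w * (j * D' s)) = m' * (j' * D v) + (2 * J ^ 2 - 2 * s - w) * m' * t := by
    rw [← Ew]
    rw [htd, hmd', hsd]
    rw [hsd] at R2
    linear_combination (q' * j * (j * j')) * R2
  have T2' : t * (j' * D W - w * (j' * D s)) = m * (j * D' v) + (2 * J ^ 2 - 2 * s - w) * m * t := by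
    rw [← Ew']
    rw [htd, hmd, hsd]
    rw [hsd] at R2'
    linear_combination (q * j' * (j * j')) * R2'
  rw [EW, EP, Et, Ev, Ev', Es] at T2
  rw [EW', EP', Et', Ev, Ev', Es'] at T2'
  have hδ' : IsUnit (m' - m) := by
    rw [hmd, hmd']
    have := hδ.neg
    rwa [neg_sub] at this
  have C1 : 4 * J * (m + m') - 2 * J * (s * g) - t * (42 * J ^ 2 + 2 * s - α + 5 * w) = 0 := by
    apply unit_cancel hδ'
    linear_combination T2 - T2'
  have htu : IsUnit t := by rw [htd]; exact ht
  have hsu : IsUnit s := by rw [hsd]; exact hs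
  have F : 100 * J ^ 4 - 56 * J ^ 2 * s + 10 * α * J ^ 2 + 12 * J * P + 62 * J ^ 2 * w + 2 * s * w -
      α * w + 5 * w ^ 2 = 0 := by
    apply unit_cancel (htu.pow 2)
    have hv2 : v = 2 * J ^ 3 + 2 * J * s - α * J - P := by rw [hsd]; exact S.hv
    rw [hv2] at T2 T2'
    linear_combination J * (T2 + T2') - (J * (m + m') + t * (4 * J ^ 2 + w)) * C1 + 24 * J ^ 2 * hmm
  -- the derivation along the level curves of J
  obtain ⟨Θ, hΘ⟩ : ∃ Θ : Derivation ℚ A A, Θ = j • D' - j' • D := ⟨_, rfl⟩
  have hT : ∀ f, Θ f = j * D' f - j' * D f := by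
    intro f
    rw [hΘ]
    simp
  obtain ⟨d, hd⟩ : ∃ d, d = m - m' := ⟨_, rfl⟩
  have hdu : IsUnit d := by rw [hd, hmd, hmd']; exact hδ
  have TJ : Θ J = 0 := by rw [hT, EJ, EJ', sub_self]
  have Tα : Θ α = 0 := by rw [hT, S.Dα, S.Dα']; ring
  have Ts : Θ s = -3 * d := by rw [hT, Es, Es', hd]; ring
  have TP : Θ P = 6 * J * d := by rw [hT, EP, EP', hd]; ring
  have Tw : s * Θ w = 6 * (5 * J ^ 2 + w) * d := by
    have h : s * Θ w = s * (j * D' w) - s * (j' * D w) := by rw [hT]; ring
    rw [h, Ew, Ew', EW, EW', EP, EP', Et, Et', Ev, Ev', Es, Es', hd]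
    ring
  have hn : ∀ n : ℕ, Θ (n : A) = 0 := fun n => Θ.map_natCast n
  have hn2 : Θ (2 : A) = 0 := by simpa using hn 2
  have hn5 : Θ (5 : A) = 0 := by simpa using hn 5
  have hn10 : Θ (10 : A) = 0 := by simpa using hn 10
  have hn12 : Θ (12 : A) = 0 := by simpa using hn 12
  have hn20 : Θ (20 : A) = 0 := by simpa using hn 20
  have hn50 : Θ (50 : A) = 0 := by simpa using hn 50
  have hn56 : Θ (56 : A) = 0 := by simpa using hn 56
  have hn62 : Θ (62 : A) = 0 := by simpa using hn 62
  have hn100 : Θ (100 : A) = 0 := by simpa using hn 100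
  have hn112 : Θ (112 : A) = 0 := by simpa using hn 112
  have hn135 : Θ (135 : A) = 0 := by simpa using hn 135
  have hn225 : Θ (225 : A) = 0 := by simpa using hn 225
  have hn310 : Θ (310 : A) = 0 := by simpa using hn 310
  have C6 : 310 * J ^ 4 + 50 * J ^ 2 * s + 112 * J ^ 2 * w + s * w + 10 * w ^ 2 - 5 * α * J ^ 2 -
      α * w = 0 := by
    have h := congrArg Θ F
    simp only [map_add, map_sub, Derivation.leibniz, Derivation.leibniz_pow, smul_eq_mul, TJ, Tα,
      Ts, TP, hn2, hn5, hn10, hn12, hn56, hn62, hn100, map_zero, nsmul_eq_mul] at h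
    push_cast at h
    have h1 : ((6 : ℕ) : A) * (d * (310 * J ^ 4 + 50 * J ^ 2 * s + 112 * J ^ 2 * w + s * w +
        10 * w ^ 2 - 5 * α * J ^ 2 - α * w)) = 0 := by
      push_cast
      linear_combination s * h - (62 * J ^ 2 + 2 * s - α + 10 * w) * Tw
    exact unit_cancel hdu (num_cancel (by norm_num) h1)
  have C7 : 1120 * J ^ 4 - 40 * J ^ 2 * s + 424 * J ^ 2 * w + s * w + 40 * w ^ 2 -
      10 * α * J ^ 2 - 2 * α * w = 0 := by
    have h := congrArg Θ C6
    simp only [map_add, map_sub, Derivation.leibniz, Derivation.leibniz_pow, smul_eq_mul, TJ, Tα,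
      Ts, TP, hn5, hn10, hn50, hn112, hn310, map_zero, nsmul_eq_mul] at h
    push_cast at h
    have h1 : ((3 : ℕ) : A) * (d * (1120 * J ^ 4 - 40 * J ^ 2 * s + 424 * J ^ 2 * w + s * w +
        40 * w ^ 2 - 10 * α * J ^ 2 - 2 * α * w)) = 0 := by
      push_cast
      linear_combination s * h - (112 * J ^ 2 + s - α + 20 * w) * Tw
    exact unit_cancel hdu (num_cancel (by norm_num) h1)
  have C8 : 20 * (5 * J ^ 2 + w) ^ 2 - s * (140 * J ^ 2 + w) = 0 := by
    linear_combination C7 - 2 * C6
  have C9 : w = -(230 * J ^ 2) := by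
    have h := congrArg Θ C8
    simp only [map_add, map_sub, Derivation.leibniz, Derivation.leibniz_pow, smul_eq_mul, TJ, Tα,
      Ts, TP, hn5, hn20, map_zero, nsmul_eq_mul] at h
    have hn140 : Θ (140 : A) = 0 := by simpa using hn 140
    rw [hn140] at h
    push_cast at h
    have h1 : ((9 : ℕ) : A) * (d * (s * (w + 230 * J ^ 2))) = 0 := by
      push_cast
      linear_combination s * h - (40 * (5 * J ^ 2 + w) - s) * Tw - 12 * d * C8
    have h2 := unit_cancel hsu (unit_cancel hdu (num_cancel (by norm_num) h1))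
    linear_combination h2
  have hJ0 : J ^ 2 = 0 := by
    have h := congrArg Θ C9
    have hn230 : Θ (230 : A) = 0 := by simpa using hn 230
    simp only [map_neg, Derivation.leibniz, Derivation.leibniz_pow, smul_eq_mul, TJ, hn230] at h
    have h1 : ((1350 : ℕ) : A) * (d * J ^ 2) = 0 := by
      push_cast
      rw [h] at Tw
      linear_combination Tw + 6 * d * C9
    exact unit_cancel hdu (num_cancel (by norm_num) h1)
  have h1 := unit_cancel (hJ.pow 2) (by rw [hJ0, zero_mul] : J ^ 2 * 1 = 0)
  exact h1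

end Pool.Agent.Helper33.TT
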