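import Pool.Agent.Helper33.TT.Prin

/-!
# The principal case for `b = 0`
-/

set_option autoImplicit false

namespace Pool.Agent.Helper33.TT

variable {A : Type*} [CommRing A] [Algebra ℚ A]

theorem null_contra {Z : Derivation ℚ A A} {α β J P v τ η w : A} (R : Pr Z α β J P v τ η w)
    (hβ : β = 0) (hP : P = 0) (hτ : τ = -2 * J) (hJ : IsUnit J) (hη : IsUnit η) : (1 : A) = 0 := by
  subst hβ hP hτ
  have Z2 : Z (2 : A) = 0 := by simpa using Z.map_natCast 2
  have Z3 : Z (3 : A) = 0 := by simpa using Z.map_natCast 3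
  have Z4 : Z (4 : A) = 0 := by simpa using Z.map_natCast 4
  have Z5 : Z (5 : A) = 0 := by simpa using Z.map_natCast 5
  have Z62 : Z (62 : A) = 0 := by simpa using Z.map_natCast 62
  have Z9 : Z (9 : A) = 0 := by simpa using Z.map_natCast 9
  have Z90 : Z (90 : A) = 0 := by simpa using Z.map_natCast 90
  have ZJ := R.ZJ
  have Zη := R.Zη
  have Zw := R.Zw
  have hW := R.hW
  have hv := R.hv
  have Zα := R.Zα
  have Zv : Z v = (60 * J ^ 2 - 2 * α) * η := by
    have h := congrArg Z hv
    simp only [map_add, map_sub, map_neg, Derivation.leibniz, Derivation.leibniz_pow, smul_eq_mul,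
      nsmul_eq_mul, Z2, Zα, ZJ, mul_zero, add_zero, neg_zero, sub_zero] at h
    push_cast at h
    rw [h]
    ring
  have e1 : 4 * w = 5 * α - 62 * J ^ 2 := by
    have h := congrArg Z hW
    simp only [map_sub, map_neg, Derivation.leibniz, Derivation.leibniz_pow, smul_eq_mul,
      nsmul_eq_mul, Z2, Z3, ZJ, Zη, Zv, mul_zero, add_zero, neg_zero, zero_sub] at h
    push_cast at h
    rw [Zv] at Zw
    have h2 : ((2 : ℕ) : A) * (J * η * (4 * w - (5 * α - 62 * J ^ 2))) = 0 := by
      push_cast
      linear_combination h - (-2 * J) * Zw - 10 * η * hv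
    have h3 := num_cancel (by norm_num) h2
    have h4 := unit_cancel (hJ.mul hη) h3
    linear_combination h4
  have e2 : w = -38 * J ^ 2 - α := by
    have h := congrArg Z e1
    simp only [map_sub, Derivation.leibniz, Derivation.leibniz_pow, smul_eq_mul,
      nsmul_eq_mul, Z4, Z5, Z62, Zα, ZJ, mul_zero, add_zero, zero_sub] at h
    push_cast at h
    rw [Zv] at Zw
    have h2 : ((4 : ℕ) : A) * (η * (w - (-38 * J ^ 2 - α))) = 0 := by
      push_cast
      linear_combination J * h + 2 * Zw
    have h3 := num_cancel (by norm_num) h2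
    have h4 := unit_cancel hη h3
    linear_combination h4
  have e3 : 9 * α = -(90 * J ^ 2) := by linear_combination 4 * e2 - e1
  have h := congrArg Z e3
  simp only [map_neg, Derivation.leibniz, Derivation.leibniz_pow, smul_eq_mul,
    nsmul_eq_mul, Z9, Z90, Zα, ZJ, mul_zero, add_zero] at h
  push_cast at h
  have h2 : ((360 : ℕ) : A) * (J * η * 1) = 0 := by
    push_cast
    linear_combination h
  exact unit_cancel (hJ.mul hη) (num_cancel (by norm_num) h2)

end Pool.Agent.Helper33.TT
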