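import Pool.Agent.Helper33.TT.Curve
import Pool.Agent.Helper33.TT.Null

/-!
# The mean curvature is constant
-/

set_option autoImplicit false

namespace Pool.Agent.Helper33.TT

theorem Sys.map {A B : Type*} [CommRing A] [Algebra ℚ A] [CommRing B] [Algebra ℚ B]
    {D D' : Derivation ℚ A A} {T T' : Derivation ℚ B B} {α β J P v W c c' q q' j j' : A}
    (S : Sys D D' α β J P v W c c' q q' j j') (φ : A →+* B) (h : ∀ a, T (φ a) = φ (D a))
    (h' : ∀ a, T' (φ a) = φ (D' a)) :
    Sys T T' (φ α) (φ β) (φ J) (φ P) (φ v) (φ W) (φ c) (φ c') (φ q) (φ q') (φ j) (φ j') where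
  Dα := by rw [h, S.Dα, map_zero]
  Dα' := by rw [h', S.Dα', map_zero]
  Dβ := by rw [h, S.Dβ, map_zero]
  Dβ' := by rw [h', S.Dβ', map_zero]
  DJ := by rw [h, S.DJ]
  DJ' := by rw [h', S.DJ']
  commj := by
    have e := congrArg φ S.commj
    simp only [map_add, map_sub, map_mul, map_neg, ← h, ← h'] at e
    exact e
  commj' := by
    have e := congrArg φ S.commj'
    simp only [map_add, map_sub, map_mul, map_neg, ← h, ← h'] at e
    exact e
  gauss := by
    have e := congrArg φ S.gauss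
    simp only [map_add, map_sub, map_mul, map_pow, map_ofNat, ← h, ← h'] at e
    exact e
  cod := by
    have e := congrArg φ S.cod
    simp only [map_add, map_mul, map_ofNat, ← h'] at e
    exact e
  cod' := by
    have e := congrArg φ S.cod'
    simp only [map_add, map_mul, map_ofNat, ← h] at e
    exact e
  hv := by
    have e := congrArg φ S.hv
    simp only [map_add, map_sub, map_mul, map_pow, map_ofNat] at e
    exact e
  jv := by
    have e := congrArg φ S.jv
    simp only [map_add, map_mul, ← h'] at e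
    exact e
  jv' := by
    have e := congrArg φ S.jv'
    simp only [map_add, map_mul, ← h] at e
    exact e
  hW := by
    have e := congrArg φ S.hW
    simp only [map_add, map_sub, map_mul, map_ofNat] at e
    exact e
  jW := by
    have e := congrArg φ S.jW
    simp only [map_sub, map_mul, ← h] at e
    exact e
  jW' := by
    have e := congrArg φ S.jW'
    simp only [map_sub, map_mul, ← h'] at e
    exact e
  q3 := by
    have e := congrArg φ S.q3
    simp only [map_sub, map_mul, map_pow, map_ofNat, ← h] at e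
    exact e
  q3' := by
    have e := congrArg φ S.q3'
    simp only [map_sub, map_mul, map_pow, map_ofNat, ← h'] at e
    exact e
  DP := by
    have e := congrArg φ S.DP
    simp only [map_add, map_neg, map_mul, map_pow, map_ofNat, ← h] at e
    exact e
  DP' := by
    have e := congrArg φ S.DP'
    simp only [map_add, map_neg, map_mul, map_pow, map_ofNat, ← h'] at e
    exact e

variable {V : Set (ℝ × ℝ)}

/-- First order operators. -/
noncomputable def op (hV : IsOpen V) (a1 a2 : Sm V) : Derivation ℚ (Sm V) (Sm V) :=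
  a1 • dv hV ((1 : ℝ), (0 : ℝ)) + a2 • dv hV ((0 : ℝ), (1 : ℝ))

theorem op_apply (hV : IsOpen V) (a1 a2 g : Sm V) :
    op hV a1 a2 g = a1 * dv hV ((1 : ℝ), (0 : ℝ)) g + a2 * dv hV ((0 : ℝ), (1 : ℝ)) g := rfl

theorem op_res {W : Set (ℝ × ℝ)} (hV : IsOpen V) (hW : IsOpen W) (h : W ⊆ V) (a1 a2 g : Sm V) :
    op hW (res h a1) (res h a2) (res h g) = res h (op hV a1 a2 g) := by
  rw [op_apply, op_apply, map_add, map_mul, map_mul, dv_res hV hW h, dv_res hV hW h]

theorem res_cj {W : Set (ℝ × ℝ)} (h : W ⊆ V) (a : Sm V) : res h (cj a) = cj (res h a) := by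
  apply Sm.ext'
  intro x
  rw [res_apply, cj_apply, cj_apply, res_apply]

theorem res_cst {W : Set (ℝ × ℝ)} (h : W ⊆ V) (z : ℂ) : res h (cst z) = cst z := by
  apply Sm.ext'
  intro x
  rw [res_apply]
  rfl

/-- The local data: the structure equations, reality and the additional equations for `b = 0`. -/
structure Ld (hV : IsOpen V) (α β : ℝ) (a1 a2 J P v W c c' q j : Sm V) : Prop where
  S : Sys (op hV a1 a2) (op hV (cj a1) (cj a2)) (cst (α : ℂ)) (cst (β : ℂ)) J P v W c c' q (cj q) j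
    (cj j)
  rJ : cj J = J
  rP : cj P = P
  nul : β = 0 → P = 0 ∧ 2 * J * j + q * cj j = 0

theorem Ld.res {W : Set (ℝ × ℝ)} {hV : IsOpen V} {α β : ℝ} {a1 a2 J P v W' c c' q j : Sm V}
    (L : Ld hV α β a1 a2 J P v W' c c' q j) (hW : IsOpen W) (h : W ⊆ V) :
    Ld hW α β (res h a1) (res h a2) (res h J) (res h P) (res h v) (res h W') (res h c)
      (res h c') (res h q) (res h j) where
  S := by
    have e := L.S.map (T := op hW (TT.res h a1) (TT.res h a2))
      (T' := op hW (cj (TT.res h a1)) (cj (TT.res h a2))) (TT.res h)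
      (fun a => op_res hV hW h a1 a2 a)
      (fun a => by rw [← res_cj, ← res_cj]; exact op_res hV hW h (cj a1) (cj a2) a)
    rw [res_cst, res_cst, res_cj, res_cj] at e
    exact e
  rJ := by rw [← res_cj, L.rJ]
  rP := by rw [← res_cj, L.rP]
  nul := by
    intro hb
    obtain ⟨h1, h2⟩ := L.nul hb
    refine ⟨by rw [h1, map_zero], ?_⟩
    have e := congrArg (TT.res h) h2
    simp only [map_add, map_mul, map_ofNat, map_zero, res_cj] at e
    exact e

theorem isOpen_ne (hV : IsOpen V) (a : Sm V) : IsOpen {x | x ∈ V ∧ fn a x ≠ 0} := by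
  have h : ContinuousOn (fn a) V := (fn_smooth a).continuousOn
  exact h.isOpen_inter_preimage hV isOpen_compl_singleton

theorem Ld.contra {hV : IsOpen V} {α β : ℝ} {a1 a2 J P v W c c' q j : Sm V}
    (L : Ld hV α β a1 a2 J P v W c c' q j) (hj : IsUnit j) (hJ : IsUnit J) (hq : IsUnit q)
    (hne : V.Nonempty) : False := by
  have hjj : IsUnit (j * cj j) := hj.mul (hj.map (cj (V := V)))
  have hqq : IsUnit (q * cj q) := hq.mul (hq.map (cj (V := V)))
  by_cases hδ : ∀ x : V, ev x (q * cj j ^ 2 - cj q * j ^ 2) = 0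
  · have hm : q * cj j ^ 2 = cj q * j ^ 2 := by
      apply Sm.ext'
      intro x
      have h := hδ x
      rw [map_sub, sub_eq_zero] at h
      exact h
    obtain ⟨x0, hx0⟩ := hne
    by_cases hβ : β = 0
    · obtain ⟨hP, hn⟩ := L.nul hβ
      have hj0 : ∀ x : V, ev x j ≠ 0 := fun x => ne_of_isUnit hj x
      have hη : (mr _ (mod_smooth hj0)) ^ 2 = j * cj j := by
        apply Sm.ext'
        intro x
        show ((Real.sqrt ((fn j x).re ^ 2 + (fn j x).im ^ 2) : ℝ) : ℂ) ^ 2 = ev x j * ev x (cj j)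
        rw [← Complex.ofReal_pow, Real.sq_sqrt (by positivity), ev_cj, Complex.mul_conj,
          Complex.normSq_apply, fn_ev j x.2]
        congr 1
        ring
      have hηu : IsUnit (mr _ (mod_smooth hj0)) := by
        have h : IsUnit (mr _ (mod_smooth hj0) * mr _ (mod_smooth hj0)) := by
          rw [← sq, hη]; exact hjj
        exact (IsUnit.mul_iff.mp h).1
      obtain ⟨ηi, hηi⟩ := hηu.exists_right_inv
      obtain ⟨τ, w, hτ, hw, R⟩ := prin L.S hqq hη hηi hm
      have hτ2 : τ = -2 * J := by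
        have h1 : (j * cj j) * (τ + 2 * J) = 0 := by
          linear_combination hτ + cj j * hn
        linear_combination unit_cancel hjj h1
      refine one_ne_zero_of hx0 (null_contra R ?_ hP hτ2 hJ hηu)
      rw [hβ, Complex.ofReal_zero]
      rfl
    · exact prin_contra hV hx0 rfl rfl L.S L.rJ L.rP hβ hqq hjj hm
  · push Not at hδ
    obtain ⟨x, hx⟩ := hδ
    set δ := q * cj j ^ 2 - cj q * j ^ 2 with hδd
    have hW := isOpen_ne hV δ
    have hsub : {x | x ∈ V ∧ fn δ x ≠ 0} ⊆ V := fun x hx => hx.1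
    have L' := L.res hW hsub
    have hu : IsUnit (TT.res hsub δ) := by
      apply isUnit_of
      intro y
      rw [res_apply, ← fn_mem δ (hsub y.2)]
      exact y.2.2
    refine one_ne_zero_of (V := {x | x ∈ V ∧ fn δ x ≠ 0}) (x := x)
      ⟨x.2, by rw [fn_ev δ x.2]; exact hx⟩
      (generic L'.S ?_ ?_ (hJ.map (TT.res hsub)) ?_)
    · rw [← res_cj, ← map_mul]
      exact hqq.map (TT.res hsub)
    · rw [← res_cj, ← map_mul]
      exact hjj.map (TT.res hsub)
    · have key : ∀ δ' : Sm V, δ' = q * cj j ^ 2 - cj q * j ^ 2 → TT.res hsub δ' =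
          TT.res hsub q * cj (TT.res hsub j) ^ 2 - cj (TT.res hsub q) * TT.res hsub j ^ 2 := by
        intro δ' h
        rw [h, map_sub, map_mul, map_mul, map_pow, map_pow, res_cj, res_cj]
      rw [key δ hδd] at hu
      exact hu

/-- Restriction to the set where `a` is nonzero. -/
theorem unit_res {a : Sm V} (h : {x | x ∈ V ∧ fn a x ≠ 0} ⊆ V) : IsUnit (TT.res h a) := by
  apply isUnit_of
  intro y
  rw [res_apply, ← fn_mem a y.2.1]
  exact y.2.2

theorem fn_res {W : Set (ℝ × ℝ)} (h : W ⊆ V) (a : Sm V) {x : ℝ × ℝ} (hx : x ∈ W) :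
    fn (res h a) x = fn a x := by
  rw [fn_mem _ hx, res_apply, ← fn_mem a (h hx)]

theorem eq_zero_of_fn {a : Sm V} (h : ∀ x ∈ V, fn a x = 0) : a = 0 := by
  apply Sm.ext'
  intro x
  rw [← fn_mem a x.2, h x x.2]
  rfl

theorem Ld.const {hV : IsOpen V} {α β : ℝ} {a1 a2 J P v W c c' q j : Sm V}
    (L : Ld hV α β a1 a2 J P v W c c' q j) : j = 0 := by
  by_contra hj
  have h0 : ∃ x0 ∈ V, fn j x0 ≠ 0 := by
    by_contra hcon
    push Not at hcon
    exact hj (eq_zero_of_fn hcon)
  obtain ⟨x0, hx0, hjx0⟩ := h0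
  -- j ≠ 0
  have hW0 := isOpen_ne hV j
  have hs0 : {x | x ∈ V ∧ fn j x ≠ 0} ⊆ V := fun x hx => hx.1
  have L0 := L.res hW0 hs0
  have hj0 : IsUnit (TT.res hs0 j) := unit_res _
  generalize TT.res hs0 a1 = a10 at L0
  generalize TT.res hs0 a2 = a20 at L0
  generalize TT.res hs0 J = J0 at L0
  generalize TT.res hs0 P = P0 at L0
  generalize TT.res hs0 v = v0 at L0
  generalize TT.res hs0 W = W0 at L0
  generalize TT.res hs0 c = c0 at L0
  generalize TT.res hs0 c' = c0' at L0
  generalize TT.res hs0 q = q0 at L0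
  generalize TT.res hs0 j = j0 at L0 hj0
  have hx0' : x0 ∈ {x | x ∈ V ∧ fn j x ≠ 0} := ⟨hx0, hjx0⟩
  generalize hV0 : {x | x ∈ V ∧ fn j x ≠ 0} = V0 at *
  clear hV0 hs0 hjx0 hx0 L hj
  -- J ≠ 0
  have h1 : ∃ x1 ∈ V0, fn J0 x1 ≠ 0 := by
    by_contra hcon
    push Not at hcon
    have h2 : J0 = 0 := eq_zero_of_fn hcon
    have h3 := L0.S.DJ
    rw [h2, map_zero] at h3
    exact ne_of_isUnit hj0 ⟨x0, hx0'⟩ (by rw [← h3]; rfl)
  obtain ⟨x1, hx1, hJx1⟩ := h1
  have hW1 := isOpen_ne hW0 J0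
  have hs1 : {x | x ∈ V0 ∧ fn J0 x ≠ 0} ⊆ V0 := fun x hx => hx.1
  have L1 := L0.res hW1 hs1
  have hj1 : IsUnit (TT.res hs1 j0) := hj0.map _
  have hJ1 : IsUnit (TT.res hs1 J0) := unit_res _
  generalize TT.res hs1 a10 = a11 at L1
  generalize TT.res hs1 a20 = a21 at L1
  generalize TT.res hs1 J0 = J1 at L1 hJ1
  generalize TT.res hs1 P0 = P1 at L1
  generalize TT.res hs1 v0 = v1 at L1
  generalize TT.res hs1 W0 = W1 at L1
  generalize TT.res hs1 c0 = c1 at L1
  generalize TT.res hs1 c0' = c1' at L1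
  generalize TT.res hs1 q0 = q1 at L1
  generalize TT.res hs1 j0 = j1 at L1 hj1
  have hx1' : x1 ∈ {x | x ∈ V0 ∧ fn J0 x ≠ 0} := ⟨hx1, hJx1⟩
  generalize hV1 : {x | x ∈ V0 ∧ fn J0 x ≠ 0} = V1 at *
  clear hV1 hs1 hJx1 hx1
  -- q ≠ 0
  have h2 : ∃ x2 ∈ V1, fn q1 x2 ≠ 0 := by
    by_contra hcon
    push Not at hcon
    have h2 : q1 = 0 := eq_zero_of_fn hcon
    have h3 := L1.S.cod
    rw [h2, map_zero, mul_zero, add_zero] at h3
    exact ne_of_isUnit hj1 ⟨x1, hx1'⟩ (by rw [← h3]; rfl)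
  obtain ⟨x2, hx2, hqx2⟩ := h2
  have hW2 := isOpen_ne hW1 q1
  have hs2 : {x | x ∈ V1 ∧ fn q1 x ≠ 0} ⊆ V1 := fun x hx => hx.1
  have L2 := L1.res hW2 hs2
  exact L2.contra (hj1.map _) (hJ1.map _) (unit_res hs2) ⟨x2, hx2, hqx2⟩

end Pool.Agent.Helper33.TT
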