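import Pool.Agent.Helper33.TT.Frame

/-!
# The structure equations from a frame
-/

set_option autoImplicit false

namespace Pool.Agent.Helper33.TT

variable {A : Type*} [CommRing A] [Algebra ℚ A]
variable {D D' : Derivation ℚ A A} {x N : Fin 3 → A} {c c' : A}

/-- The Laplace operator, componentwise. -/
def lapA (D D' : Derivation ℚ A A) (c' : A) (u : Fin 3 → A) : Fin 3 → A :=
  (4 : A) • (dD D' (dD D u) + c' • dD D u)

theorem Fr.commv (F : Fr D D' x N c c') (u : Fin 3 → A) :
    dD D' (dD D u) - dD D (dD D' u) = -c' • dD D u + c • dD D' u := by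
  funext i
  have h := F.comm (u i)
  simpa [dD] using h

omit [Algebra ℚ A] in
theorem dp_sub (u v w : Fin 3 → A) : dp (u - v) w = dp u w - dp v w := by
  simp only [dp, Pi.sub_apply]; ring

omit [Algebra ℚ A] in
theorem dp_zero (w : Fin 3 → A) : dp 0 w = 0 := by
  simp [dp]

theorem Fr.codazzi (F : Fr D D' x N c c') :
    D' (dp (dD D (dD D x)) N) + 2 * c' * dp (dD D (dD D x)) N = D (mJ D D' x N) := by
  have h := F.commv (dD D x)
  rw [F.e21] at h
  have h0 := F.e11
  set q := dp (dD D (dD D x)) N with hq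
  rw [h0] at h
  rw [dD_add, dD_add, dD_smul, dD_smul, dD_smul, dD_smul, F.e21, F.eN, F.eN', ← hq, h0] at h
  have h2 := congrArg (fun v => dp v N) h
  simp only [dp_sub, dp_add, dp_smul, F.xN, F.xN', F.NN, map_neg] at h2
  linear_combination h2

theorem Fr.codazzi' (F : Fr D D' x N c c') :
    D (dp (dD D' (dD D' x)) N) + 2 * c * dp (dD D' (dD D' x)) N = D' (mJ D D' x N) := by
  have h := F.commv (dD D' x)
  rw [F.e12] at h
  have h0 := F.e22
  set q' := dp (dD D' (dD D' x)) N with hq
  rw [h0] at h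
  rw [dD_add, dD_add, dD_smul, dD_smul, dD_smul, dD_smul, F.e12, F.eN, F.eN', ← hq, h0] at h
  have h2 := congrArg (fun v => dp v N) h
  simp only [dp_sub, dp_add, dp_smul, F.xN, F.xN', F.NN, map_neg] at h2
  linear_combination -h2

theorem Fr.gauss (F : Fr D D' x N c c') :
    D' c + D c' + 2 * c * c' = 2 * (dp (dD D (dD D x)) N * dp (dD D' (dD D' x)) N) -
      2 * mJ D D' x N ^ 2 := by
  have h := F.commv (dD D x)
  rw [F.e21] at h
  have h0 := F.e11
  set q := dp (dD D (dD D x)) N with hq
  rw [h0] at h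
  rw [dD_add, dD_add, dD_smul, dD_smul, dD_smul, dD_smul, F.e21, F.eN, F.eN', ← hq, h0] at h
  have h2 := congrArg (fun v => dp v (dD D' x)) h
  have hN : dp N (dD D' x) = 0 := by rw [dp_comm]; exact F.xN'
  simp only [dp_sub, dp_add, dp_smul, F.xx', hN, map_neg] at h2
  have h3 := F.x1
  linear_combination 2 * h2 - (D' c - c * c' - 2 * q * dp (dD D' (dD D' x)) N + D c' + c * c' +
    2 * mJ D D' x N ^ 2 + c' * c + c * c') * h3

theorem sys_of_frame (F : Fr D D' x N c c') {x0 : Fin 3 → A} {α β : A} (h0 : dD D x0 = 0)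
    (h0' : dD D' x0 = 0) (hα : D α = 0) (hα' : D' α = 0) (hβ : D β = 0) (hβ' : D' β = 0)
    (h : lapA D D' c' (lapA D D' c' x) + (4 * α) • lapA D D' c' x + (32 * β) • (x - x0) = 0) :
    ∃ P v W j j', j = D (mJ D D' x N) ∧ j' = D' (mJ D D' x N) ∧
      2 * mJ D D' x N * j + dp (dD D (dD D x)) N * j' = 2 * β * dp (x - x0) (dD D x) ∧
      2 * mJ D D' x N * j' + dp (dD D' (dD D' x)) N * j = 2 * β * dp (x - x0) (dD D' x) ∧
      P = 2 * β * dp (x - x0) N ∧
      Sys D D' α β (mJ D D' x N) P v W c c' (dp (dD D (dD D x)) N) (dp (dD D' (dD D' x)) N)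
        j j' := by
  have h2 : D (2 : A) = 0 := by simpa using D.map_natCast 2
  have h2' : D' (2 : A) = 0 := by simpa using D'.map_natCast 2
  have h4 : D (4 : A) = 0 := by simpa using D.map_natCast 4
  have h4' : D' (4 : A) = 0 := by simpa using D'.map_natCast 4
  have cod := F.codazzi
  have cod' := F.codazzi'
  have gau := F.gauss
  have hJcomm := F.comm (mJ D D' x N)
  have e11 := F.e11
  have e22 := F.e22
  have e12 := F.e12
  have e21 := F.e21
  have eN := F.eN
  have eN' := F.eN'
  have lx : lapA D D' c' x = (4 * mJ D D' x N) • N := by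
    unfold lapA
    rw [e21]
    funext i
    simp only [Pi.smul_apply, Pi.add_apply, smul_eq_mul]
    ring
  set J := mJ D D' x N with hJ
  set q := dp (dD D (dD D x)) N with hq
  set q' := dp (dD D' (dD D' x)) N with hq'
  obtain ⟨j, hj⟩ : ∃ j, j = D J := ⟨_, rfl⟩
  obtain ⟨j', hj'⟩ : ∃ j', j' = D' J := ⟨_, rfl⟩
  obtain ⟨v, hv⟩ : ∃ v, v = D' j + c' * j := ⟨_, rfl⟩
  obtain ⟨P, hP⟩ : ∃ P, P = 2 * β * dp (x - x0) N := ⟨_, rfl⟩
  rw [← hj] at cod
  rw [← hj'] at cod'
  rw [← hj, ← hj'] at hJcomm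
  rw [lx] at h
  -- the derivative of 4 J N
  have hd : dD D ((4 * J) • N) = (4 * j) • N + (-8 * J ^ 2) • dD D x + (-8 * J * q) • dD D' x := by
    rw [dD_smul, eN, Derivation.leibniz, smul_eq_mul, smul_eq_mul, h4, ← hj]
    funext i
    simp only [Pi.smul_apply, Pi.add_apply, smul_eq_mul]
    ring
  have hdd : dD D' (dD D ((4 * J) • N)) + c' • dD D ((4 * J) • N) =
      (4 * v - 8 * J ^ 3 - 8 * J * (q * q')) • N + (-8 * (q' * j + 2 * J * j')) • dD D x +
        (-8 * (2 * J * j + q * j')) • dD D' x := by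
    have h8 : D' (-8 : A) = 0 := by
      rw [map_neg]
      have := D'.map_natCast 8
      simp only [Nat.cast_ofNat] at this
      rw [this, neg_zero]
    rw [hd, dD_add, dD_add, dD_smul, dD_smul, dD_smul, eN', e21, e22, Derivation.leibniz,
      Derivation.leibniz, Derivation.leibniz, Derivation.leibniz, Derivation.leibniz_pow, h8, h4',
      ← hj']
    funext i
    simp only [Pi.smul_apply, Pi.add_apply, smul_eq_mul, nsmul_eq_mul, Nat.cast_ofNat, smul_zero,
      add_zero, zero_mul, mul_zero]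
    rw [hv]
    linear_combination (-8 * J * dD D' x i) * cod
  have hL : lapA D D' c' ((4 * J) • N) =
      (16 * v - 32 * J ^ 3 - 32 * J * (q * q')) • N + (-32 * (q' * j + 2 * J * j')) • dD D x +
        (-32 * (2 * J * j + q * j')) • dD D' x := by
    unfold lapA
    rw [hdd]
    funext i
    simp only [Pi.smul_apply, Pi.add_apply, smul_eq_mul]
    ring
  rw [hL] at h
  have n1N := F.xN
  have n2N := F.xN'
  have nN1 : dp N (dD D x) = 0 := by rw [dp_comm]; exact n1N
  have nN2 : dp N (dD D' x) = 0 := by rw [dp_comm]; exact n2N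
  have n11 := F.xx
  have n22 := F.xx'
  have n12 := F.x1
  have n21 : 2 * dp (dD D' x) (dD D x) = 1 := by rw [dp_comm]; exact n12
  have nNN := F.NN
  have eqN : v = 2 * J ^ 3 + 2 * J * (q * q') - α * J - P := by
    have h1 := congrArg (fun u => dp u N) h
    simp only [dp_add, dp_smul, dp_zero, n1N, n2N, nNN] at h1
    have h3 : ((16 : ℕ) : A) * (v - (2 * J ^ 3 + 2 * J * (q * q') - α * J - P)) = 0 := by
      push_cast
      rw [hP]
      linear_combination h1
    linear_combination num_cancel (by norm_num) h3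
  have eq1 : 2 * J * j + q * j' = 2 * β * dp (x - x0) (dD D x) := by
    have h1 := congrArg (fun u => dp u (dD D x)) h
    simp only [dp_add, dp_smul, dp_zero, n11, nN1] at h1
    have h3 : ((16 : ℕ) : A) * (2 * J * j + q * j' - 2 * β * dp (x - x0) (dD D x)) = 0 := by
      push_cast
      linear_combination -h1 - (16 * (2 * J * j + q * j')) * n21
    linear_combination num_cancel (by norm_num) h3
  have eq2 : 2 * J * j' + q' * j = 2 * β * dp (x - x0) (dD D' x) := by
    have h1 := congrArg (fun u => dp u (dD D' x)) h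
    simp only [dp_add, dp_smul, dp_zero, n22, nN2] at h1
    have h3 : ((16 : ℕ) : A) * (2 * J * j' + q' * j - 2 * β * dp (x - x0) (dD D' x)) = 0 := by
      push_cast
      linear_combination -h1 - (16 * (2 * J * j' + q' * j)) * n12
    linear_combination num_cancel (by norm_num) h3
  have dX : dD D (x - x0) = dD D x := by
    have : dD D (x - x0) = dD D x - dD D x0 := by funext i; simp [dD]
    rw [this, h0, sub_zero]
  have dX' : dD D' (x - x0) = dD D' x := by
    have : dD D' (x - x0) = dD D' x - dD D' x0 := by funext i; simp [dD]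
    rw [this, h0', sub_zero]
  obtain ⟨r1, hr1⟩ : ∃ r, r = dp (x - x0) (dD D x) := ⟨_, rfl⟩
  obtain ⟨r2, hr2⟩ : ∃ r, r = dp (x - x0) (dD D' x) := ⟨_, rfl⟩
  obtain ⟨p, hp⟩ : ∃ r, r = dp (x - x0) N := ⟨_, rfl⟩
  have hc : ∀ u w : Fin 3 → A, dp u w = dp w u := dp_comm
  have Dr1 : D r1 = c * r1 + q * p := by
    rw [hr1, hp, D_dp, dX, n11, e11, hc _ (c • dD D x + q • N), dp_add, dp_smul, dp_smul,
      hc (dD D x) (x - x0), hc N (x - x0)]
    ring
  have Dr1' : 2 * D' r1 = 1 - 2 * c' * r1 + 2 * J * p := by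
    rw [hr1, hp, D_dp, dX', e21, hc _ (-c' • dD D x + J • N), dp_add, dp_smul, dp_smul,
      hc (dD D x) (x - x0), hc N (x - x0)]
    linear_combination n21
  have Dr2 : 2 * D r2 = 1 - 2 * c * r2 + 2 * J * p := by
    rw [hr2, hp, D_dp, dX, e12, hc _ (-c • dD D' x + J • N), dp_add, dp_smul, dp_smul,
      hc (dD D' x) (x - x0), hc N (x - x0)]
    linear_combination n12
  have Dr2' : D' r2 = c' * r2 + q' * p := by
    rw [hr2, hp, D_dp, dX', n22, e22, hc _ (c' • dD D' x + q' • N), dp_add, dp_smul, dp_smul,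
      hc (dD D' x) (x - x0), hc N (x - x0)]
    ring
  have Dp : D p = -2 * J * r1 - 2 * q * r2 := by
    rw [hp, hr1, hr2, D_dp, dX, n1N, eN, hc (x - x0) _, dp_add, dp_smul, dp_smul,
      hc (dD D x) (x - x0), hc (dD D' x) (x - x0)]
    ring
  have Dp' : D' p = -2 * J * r2 - 2 * q' * r1 := by
    rw [hp, hr1, hr2, D_dp, dX', n2N, eN', hc (x - x0) _, dp_add, dp_smul, dp_smul,
      hc (dD D x) (x - x0), hc (dD D' x) (x - x0)]
    ring
  rw [← hr1] at eq1
  rw [← hr2] at eq2
  rw [← hp] at hP
  have jv' : D j' + c * j' = v := by rw [hv]; linear_combination -hJcomm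
  have f1 := congrArg D eq1
  have f1' := congrArg D' eq1
  have f2 := congrArg D eq2
  have f2' := congrArg D' eq2
  simp only [map_add, Derivation.leibniz, smul_eq_mul, h2, h2', hβ, hβ', ← hj, ← hj', mul_zero,
    add_zero] at f1 f1' f2 f2'
  rw [Dr1] at f1
  rw [Dr2'] at f2'
  obtain ⟨W, hW⟩ : ∃ W, W = β + J * P - 3 * (j * j') - 2 * J * v := ⟨_, rfl⟩
  refine ⟨P, v, W, j, j', hj, hj', by rw [← hr1]; exact eq1, by rw [← hr2]; exact eq2,
    by rw [← hp]; exact hP, ?_⟩
  exact
    { Dα := hα
      Dα' := hα'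
      Dβ := hβ
      Dβ' := hβ'
      DJ := hj.symm
      DJ' := hj'.symm
      commj := F.comm j
      commj' := F.comm j'
      gauss := gau
      cod := cod
      cod' := cod'
      hv := eqN
      jv := hv.symm
      jv' := jv'
      hW := hW
      jW := by
        rw [hW, hP]
        linear_combination f2 + β * Dr2 + c * eq2 - 2 * J * jv' - j * cod'
      jW' := by
        rw [hW, hP]
        linear_combination f1' + β * Dr1' + c' * eq1 + 2 * J * hv - j' * cod
      q3 := by
        rw [hP]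
        linear_combination f1 - c * eq1 - q * jv'
      q3' := by
        rw [hP]
        linear_combination f2' - c' * eq2 + q' * hv
      DP := by
        rw [hP]
        simp only [Derivation.leibniz, smul_eq_mul, h2, hβ, mul_zero, add_zero]
        rw [Dp]
        linear_combination (2 * J) * eq1 + 2 * q * eq2
      DP' := by
        rw [hP]
        simp only [Derivation.leibniz, smul_eq_mul, h2', hβ', mul_zero, add_zero]
        rw [Dp']
        linear_combination (2 * J) * eq2 + 2 * q' * eq1 }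

end Pool.Agent.Helper33.TT
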